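import Pool.Agent.X130.SD.B
import Pool.Agent.H891R2.DS.Final

set_option autoImplicit false

/-! The blocks of the state sum of a strongly dominated state. -/

namespace Pool.Agent.X130.SD

open Finset LaurentPolynomial Pool.Agent.H891R2.Jones Pool.Agent.H891R2.MT Pool.Agent.H891R2.DS
open Pool.Agent.H891R2 Pool.Agent.H891R2.MT.T4b

variable {k : ℕ}

open Classical in
/-- the edges of `R` which are bridges of `F ∪ R` -/
noncomputable def BB (Γ : Ribbon k) (R F : Finset (Fin k)) : Finset (Fin k) :=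
  R.filter (fun e => Γ.comps ((F ∪ R).erase e) = Γ.comps (F ∪ R) + 1)

theorem BB_sub (Γ : Ribbon k) (R F : Finset (Fin k)) : BB Γ R F ⊆ R := filter_subset _ _

theorem BB_br (Γ : Ribbon k) (R F : Finset (Fin k)) :
    ∀ e ∈ BB Γ R F, Γ.comps ((F ∪ R).erase e) = Γ.comps (F ∪ R) + 1 :=
  fun _ he => (mem_filter.mp he).2

theorem hdis (Γ : Ribbon k) (R F : Finset (Fin k)) (hFR : Disjoint F R) :
    ∀ Q' ⊆ R \ BB Γ R F, Disjoint (F ∪ Q') (BB Γ R F) := by
  intro Q' hQ'
  rw [disjoint_union_left]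
  exact ⟨disjoint_of_subset_right (BB_sub Γ R F) hFR, disjoint_of_subset_left hQ' sdiff_disjoint⟩

theorem hcurv (Γ : Ribbon k) (R F : Finset (Fin k)) (hFR : Disjoint F R) :
    ∀ Q' ⊆ R \ BB Γ R F, ∀ Q'' ⊆ BB Γ R F,
      Γ.curves (F ∪ Q') = Γ.curves (F ∪ (Q' ∪ Q'')) + Q''.card := by
  intro Q' hQ' Q'' hQ''
  rw [← union_assoc]
  exact D8.curves_bridges Γ (curves_bridge Γ) (F ∪ R) Q'' (F ∪ Q')
    (hQ''.trans ((BB_sub Γ R F).trans subset_union_right))
    (fun e he => BB_br Γ R F e (hQ'' he))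
    (union_subset_union le_rfl (hQ'.trans sdiff_subset))
    (disjoint_of_subset_right hQ'' (hdis Γ R F hFR Q' hQ'))

theorem hx (Γ : Ribbon k) (hk : 0 < k) (R F : Finset (Fin k)) (hFR : Disjoint F R) :
    ∀ Q' ⊆ R \ BB Γ R F, (BB Γ R F).card ≤ Γ.curves (F ∪ Q') - 1 := by
  intro Q' hQ'
  have h1 := hcurv Γ R F hFR Q' hQ' (BB Γ R F) le_rfl
  have h2 := D8.curves_pos Γ hk (F ∪ (Q' ∪ BB Γ R F))
  omega

theorem blk_sum (Γ : Ribbon k) (hk : 0 < k) (R F : Finset (Fin k)) (hFR : Disjoint F R) :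
    blk Γ R F = ∑ Q' ∈ (R \ BB Γ R F).powerset, T (2 * F.card - 2 * Q'.card) *
      ((-1) ^ (BB Γ R F).card * T (2 * (BB Γ R F).card) *
        (-T 2 - T (-2)) ^ (Γ.curves (F ∪ Q') - 1 - (BB Γ R F).card)) := by
  unfold blk
  rw [D8.sum_split R (BB Γ R F) (BB_sub Γ R F)]
  apply Finset.sum_congr rfl
  intro Q' hQ'
  rw [mem_powerset] at hQ'
  rw [← CA.C7.binomial (BB Γ R F) _ (hx Γ hk R F hFR Q' hQ'), mul_sum]
  apply Finset.sum_congr rfl
  intro Q'' hQ''
  rw [mem_powerset] at hQ''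
  have h1 := hcurv Γ R F hFR Q' hQ' Q'' hQ''
  have h3 : Γ.curves (F ∪ (Q' ∪ Q'')) - 1 = Γ.curves (F ∪ Q') - 1 - Q''.card := by omega
  have h4 : (Q' ∪ Q'').card = Q'.card + Q''.card :=
    card_union_of_disjoint (disjoint_of_subset_right hQ''
      (disjoint_of_subset_left hQ' sdiff_disjoint))
  rw [h3, ← mul_assoc, ← T_add, h4]
  congr 2
  push_cast; ring

/-- the rank inequality for the edges of `R` on cycles of `F ∪ R` -/
theorem nonbridge (Γ : Ribbon k) (R F : Finset (Fin k)) (hFR : Disjoint F R) :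
    (F ∪ (R \ BB Γ R F)) ∩ R = R \ BB Γ R F ∧
    ∀ e ∈ R \ BB Γ R F, Γ.comps ((F ∪ (R \ BB Γ R F)).erase e) = Γ.comps (F ∪ (R \ BB Γ R F)) := by
  have bridges_union := CA.C6.bridges_union Γ
  have hBH : BB Γ R F ⊆ F ∪ R := (BB_sub Γ R F).trans subset_union_right
  constructor
  · ext x
    simp only [mem_inter, mem_union, mem_sdiff]
    constructor
    · rintro ⟨h | h, hR⟩
      · exact absurd hR (disjoint_left.mp hFR h)
      · exact h
    · intro h
      exact ⟨Or.inr h, h.1⟩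
  · intro e he
    have heR : e ∈ R := (mem_sdiff.mp he).1
    have heB : e ∉ BB Γ R F := (mem_sdiff.mp he).2
    have heH : e ∈ F ∪ R := mem_union_right _ heR
    have h3 : Γ.comps ((F ∪ R).erase e) = Γ.comps (F ∪ R) := by
      have h4 := T3a.comps_erase Γ (F ∪ R) e heH
      have h5 : Γ.comps ((F ∪ R).erase e) ≠ Γ.comps (F ∪ R) + 1 :=
        fun h => heB (mem_filter.mpr ⟨heR, h⟩)
      omega
    have hunion : F ∪ (R \ BB Γ R F) ∪ BB Γ R F = F ∪ R := by
      rw [union_assoc, sdiff_union_of_subset (BB_sub Γ R F)]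
    have h6 := bridges_union (F ∪ R) (BB Γ R F) (F ∪ (R \ BB Γ R F)) hBH (BB_br Γ R F)
      (union_subset_union le_rfl sdiff_subset) (hdis Γ R F hFR _ le_rfl)
    rw [hunion] at h6
    have h7 := bridges_union (F ∪ R) (BB Γ R F) ((F ∪ (R \ BB Γ R F)).erase e) hBH (BB_br Γ R F)
      ((erase_subset _ _).trans (union_subset_union le_rfl sdiff_subset))
      (disjoint_of_subset_left (erase_subset _ _) (hdis Γ R F hFR _ le_rfl))
    have h8 : (F ∪ (R \ BB Γ R F)).erase e ∪ BB Γ R F = (F ∪ R).erase e := by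
      ext x
      by_cases hxe : x = e
      · subst hxe
        simp [heB]
      · have : x ∈ F ∪ (R \ BB Γ R F) ∪ BB Γ R F ↔ x ∈ F ∪ R := by rw [hunion]
        simp only [mem_union, mem_erase] at this ⊢
        tauto
    rw [h8, h3, ← h6] at h7
    exact h7

/-- the blocks have no terms of low degree -/
theorem blk_ge' (Γ : Ribbon k) (hk : 0 < k) (R F : Finset (Fin k)) (hFR : Disjoint F R) (t : ℕ)
    (hmain : Γ.comps (F ∪ (R \ BB Γ R F)) + 2 * (R \ BB Γ R F).card + 1 + t ≤ Γ.verts) :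
    GE (blk Γ R F) (4 * R.card - 2 * Γ.verts + 6 + 4 * t) := by
  rw [blk_sum Γ hk R F hFR]
  apply D8.GE_sum
  intro Q' hQ'
  rw [mem_powerset] at hQ'
  have hx0 := hx Γ hk R F hFR Q' hQ'
  have hx1 := D8.curves_pos Γ hk (F ∪ Q')
  have hcardR : R.card = (R \ BB Γ R F).card + (BB Γ R F).card := by
    rw [card_sdiff_of_subset (BB_sub Γ R F)]
    have := card_le_card (BB_sub Γ R F)
    omega
  have hcardU : ∀ Q ⊆ R, (F ∪ Q).card = F.card + Q.card := fun Q hQ =>
    card_union_of_disjoint (disjoint_of_subset_right hQ hFR)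
  set B := BB Γ R F with hB
  have hS := (SIn.T (2 * (F.card : ℤ) - 2 * Q'.card)).mul
    (((SIn_sgn B.card).mul (SIn.T (2 * (B.card : ℤ)))).mul
      (SIn_d.pow (Γ.curves (F ∪ Q') - 1 - B.card)))
  intro j hj
  refine le_trans ?_ (hS j hj).1
  have h1 := curves_le Γ (F ∪ Q')
  have h2 := hcardU Q' (hQ'.trans sdiff_subset)
  have h3 := T3a.mono Γ (F ∪ (R \ B)).card (F ∪ Q') (F ∪ (R \ B)) (by omega)
    (union_subset_union le_rfl hQ')
  rw [h2, hcardU _ sdiff_subset] at h3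
  rw [h2] at h1
  have h4 : ((Γ.curves (F ∪ Q') - 1 - B.card : ℕ) : ℤ) = Γ.curves (F ∪ Q') - 1 - B.card := by
    omega
  rw [h4]
  push_cast at h1 ⊢
  omega

theorem coeff_d_pow2 (j : ℕ) :
    ((-T 2 - T (-2) : ℤ[T;T⁻¹]) ^ j).coeff (-(2 * j) + 4) = (-1) ^ j * j := by
  induction j with
  | zero =>
    rw [pow_zero]
    have := C_apply (R := ℤ) 1 4
    rw [map_one] at this
    simp [this]
  | succ j ih =>
    have h1 : (-T 2 - T (-2) : ℤ[T;T⁻¹]) ^ (j + 1) =
        -((-T 2 - T (-2)) ^ j * T 2) + -((-T 2 - T (-2)) ^ j * T (-2)) := by ring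
    rw [h1, AddMonoidAlgebra.coeff_add, Finsupp.add_apply, AddMonoidAlgebra.coeff_neg,
      AddMonoidAlgebra.coeff_neg, Finsupp.neg_apply, Finsupp.neg_apply, D10.coeff_mul_T,
      D10.coeff_mul_T]
    have h2 : (-(2 * ((j + 1 : ℕ) : ℤ)) + 4 - 2) = -(2 * j) := by push_cast; ring
    have h3 : (-(2 * ((j + 1 : ℕ) : ℤ)) + 4 - -2) = -(2 * j) + 4 := by push_cast; ring
    rw [h2, h3, ih, D10.coeff_d_pow, pow_succ]
    push_cast
    ring

theorem coeff_T_mul (m j : ℤ) (f : ℤ[T;T⁻¹]) : (T m * f).coeff j = f.coeff (j - m) :=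
  Fin'.coeff_T_mul m j f

theorem coeff_sgn_mul (a : ℕ) (j : ℤ) (f : ℤ[T;T⁻¹]) :
    ((-1) ^ a * f).coeff j = (-1) ^ a * f.coeff j := by
  have h : (-1 : ℤ[T;T⁻¹]) ^ a * f = C ((-1) ^ a) * f := by
    rw [map_pow, map_neg, map_one]
  rw [h, ← LaurentPolynomial.smul_eq_C_mul, AddMonoidAlgebra.coeff_smul, Finsupp.smul_apply,
    smul_eq_mul]

section state

variable (Γ : Ribbon k) (hΓ : Γ.Planar) (hk : 0 < k) (S M : Finset (Fin k))
  (hM : SDom (stateGraph Γ S) M)

include hΓ hM in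
theorem ranks : (∀ H : Finset (Fin k), (H ∩ M).Nonempty →
      (∀ e ∈ H ∩ M, (stateGraph Γ S).comps (H.erase e) = (stateGraph Γ S).comps H) →
        (stateGraph Γ S).comps H + 2 * (H ∩ M).card + 1 ≤ (stateGraph Γ S).verts) ∧
    (∀ H : Finset (Fin k), H.Nonempty → (stateGraph Γ S).comps H + 1 ≤ (stateGraph Γ S).verts) :=
  rank_ineq (stateGraph Γ S) M (rank_bridgeless Γ hΓ S M hM.dom)

include hΓ hM in
theorem BB_all (F : Finset (Fin k)) (hFM : Disjoint F M)
    (hF : (stateGraph Γ S).comps F + 1 = (stateGraph Γ S).verts) : BB (stateGraph Γ S) M F = M := by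
  by_contra hne
  have hne2 : (M \ BB (stateGraph Γ S) M F).Nonempty := by
    rw [sdiff_nonempty]
    intro h
    exact hne (subset_antisymm (BB_sub _ _ _) h)
  obtain ⟨h1, h2⟩ := nonbridge (stateGraph Γ S) M F hFM
  have h3 := strict Γ hΓ S M hM (F ∪ (M \ BB (stateGraph Γ S) M F)) (by rw [h1]; exact hne2)
    (by rw [h1]; exact h2)
  rw [h1] at h3
  have h4 := comps_ge (stateGraph Γ S) (subset_union_left : F ⊆ F ∪ (M \ BB (stateGraph Γ S) M F))
  have h5 := card_union_le F (M \ BB (stateGraph Γ S) M F)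
  omega

include hΓ hM hk in
theorem blk_far (F : Finset (Fin k)) (hFM : Disjoint F M) (hFn : F.Nonempty)
    (hF : (stateGraph Γ S).comps F + 1 ≠ (stateGraph Γ S).verts) :
    GE (blk (stateGraph Γ S) M F) (4 * M.card - 2 * (stateGraph Γ S).verts + 10) := by
  have hg := blk_ge' (stateGraph Γ S) hk M F hFM 1 (by
    by_cases hne : (M \ BB (stateGraph Γ S) M F).Nonempty
    · obtain ⟨h1, h2⟩ := nonbridge (stateGraph Γ S) M F hFM
      have h3 := strict Γ hΓ S M hM (F ∪ (M \ BB (stateGraph Γ S) M F)) (by rw [h1]; exact hne)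
        (by rw [h1]; exact h2)
      rw [h1] at h3
      omega
    · rw [not_nonempty_iff_eq_empty] at hne
      rw [hne, union_empty, card_empty]
      have := (ranks Γ hΓ S M hM).2 F hFn
      omega)
  intro j hj
  have := hg j hj
  push_cast at this
  omega

include hΓ hM hk in
theorem blk_near (F : Finset (Fin k)) (hFM : Disjoint F M) (hFn : F.Nonempty)
    (hF : (stateGraph Γ S).comps F + 1 = (stateGraph Γ S).verts) :
    (blk (stateGraph Γ S) M F).coeff (4 * M.card - 2 * (stateGraph Γ S).verts + 6) =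
      (-1) ^ ((stateGraph Γ S).verts - 1) * (-1) ^ F.card := by
  have hB := BB_all Γ hΓ S M hM F hFM hF
  have hcur := curves_parallel Γ hΓ S F (fun e => (ranks Γ hΓ S M hM).2 {e} (singleton_nonempty e)) hF
  have hx0 := hx (stateGraph Γ S) hk M F hFM ∅ (empty_subset _)
  rw [hB, union_empty] at hx0
  have hpos := D8.curves_pos (stateGraph Γ S) hk F
  have hcard := card_pos.2 hFn
  rw [blk_sum (stateGraph Γ S) hk M F hFM, hB, sdiff_self, bot_eq_empty, powerset_empty,
    sum_singleton, union_empty, card_empty]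
  rw [coeff_T_mul, mul_assoc, coeff_sgn_mul, coeff_T_mul]
  set N := (stateGraph Γ S).curves F - 1 - M.card with hN
  have e1 : (4 * (M.card : ℤ) - 2 * (stateGraph Γ S).verts + 6 - (2 * F.card - 2 * ((0 : ℕ) : ℤ)) -
      2 * M.card) = -(2 * N) := by omega
  rw [e1, D10.coeff_d_pow, ← pow_add, ← pow_add]
  have e2 : (stateGraph Γ S).verts - 1 + F.card = M.card + N + 2 := by omega
  rw [e2, pow_add _ _ 2]
  norm_num

include hΓ hM hk in
theorem blk_zero :
    (blk (stateGraph Γ S) M ∅).coeff (4 * M.card - 2 * (stateGraph Γ S).verts + 6) =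
      (-1) ^ ((stateGraph Γ S).verts - 1) * ((stateGraph Γ S).verts - 1 - M.card) := by
  obtain ⟨h1, h2⟩ := blk_empty (stateGraph Γ S) hk M (ranks Γ hΓ S M hM).1
  rw [h2, mul_assoc, coeff_sgn_mul, coeff_T_mul]
  set N := (stateGraph Γ S).verts - 1 - M.card with hN
  have e1 : (4 * (M.card : ℤ) - 2 * (stateGraph Γ S).verts + 6 - 2 * M.card) = -(2 * N) + 4 := by
    omega
  rw [e1, coeff_d_pow2, ← mul_assoc, ← pow_add]
  have e2 : M.card + N = (stateGraph Γ S).verts - 1 := by omega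
  have e3 : (N : ℤ) = (stateGraph Γ S).verts - 1 - M.card := by omega
  rw [e2, e3]

open Classical in
include hΓ hM hk in
/-- the second coefficient of the state sum -/
theorem second_coeff :
    (PP (stateGraph Γ S) M).coeff (4 * M.card - 2 * (stateGraph Γ S).verts + 6) =
      (-1) ^ ((stateGraph Γ S).verts - 1) * ((stateGraph Γ S).verts - 1 - M.card +
        ∑ F ∈ ((Mᶜ).powerset.erase ∅).filter
          (fun F => (stateGraph Γ S).comps F + 1 = (stateGraph Γ S).verts), (-1) ^ F.card) := by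
  have hmem : (∅ : Finset (Fin k)) ∈ (Mᶜ).powerset := Finset.empty_mem_powerset _
  have hsplit : PP (stateGraph Γ S) M = blk (stateGraph Γ S) M ∅ +
      ∑ F ∈ (Mᶜ).powerset.erase ∅, blk (stateGraph Γ S) M F := by
    rw [show PP (stateGraph Γ S) M = ∑ F ∈ (Mᶜ).powerset, blk (stateGraph Γ S) M F from
      D10.PP_eq _ _, Finset.add_sum_erase _ _ hmem]
  have hFM : ∀ F ∈ (Mᶜ).powerset.erase ∅, Disjoint F M ∧ F.Nonempty := by
    intro F hF
    obtain ⟨h1, h2⟩ := Finset.mem_erase.1 hF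
    rw [Finset.mem_powerset] at h2
    refine ⟨?_, Finset.nonempty_iff_ne_empty.2 h1⟩
    rw [Finset.disjoint_left]
    intro x hx
    exact Finset.mem_compl.1 (h2 hx)
  have hco : ∀ (s : Finset (Finset (Fin k))) (f : Finset (Fin k) → ℤ[T;T⁻¹]) (j : ℤ),
      (∑ F ∈ s, f F).coeff j = ∑ F ∈ s, (f F).coeff j := by
    intro s f j
    induction s using Finset.induction_on with
    | empty => rw [sum_empty, sum_empty]; rfl
    | insert a s ha ih =>
      rw [sum_insert ha, sum_insert ha, AddMonoidAlgebra.coeff_add, Finsupp.add_apply, ih]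
  rw [hsplit, AddMonoidAlgebra.coeff_add, Finsupp.add_apply, blk_zero Γ hΓ hk S M hM, hco, mul_add,
    mul_sum, sum_filter]
  congr 1
  apply sum_congr rfl
  intro F hF
  obtain ⟨h1, h2⟩ := hFM F hF
  by_cases h3 : (stateGraph Γ S).comps F + 1 = (stateGraph Γ S).verts
  · rw [if_pos h3]
    exact blk_near Γ hΓ hk S M hM F h1 h2 h3
  · rw [if_neg h3]
    by_contra hne
    have := blk_far Γ hΓ hk S M hM F h1 h2 h3 _ hne
    omega

end state

end Pool.Agent.X130.SD
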