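import Pool.Agent.X130.SD.F

set_option autoImplicit false

/-! Assembly. -/

namespace Pool.Agent.X130.SD

open Finset LaurentPolynomial Pool.Agent.H891R2.Jones Pool.Agent.H891R2.MT Pool.Agent.H891R2.DS
open Pool.Agent.H891R2 Pool.Agent.TH561.PK

variable {k : ℕ}

theorem fPoly_coeff (Γ : Ribbon k) (hk : 0 < k) (R : Finset (Fin k))
    (D : Diagram (Ribbon.Pt (DS.sg R))) (hD : Orients D (Γ.link (DS.sg R))) :
    ∃ s : ℤ, |s| = 1 ∧ ∀ j, D.fPoly.coeff j = s * ((Γ.link (DS.sg R)).std.bracket).coeff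
      (j + 3 * D.writhe) := by
  have hP : Nonempty (Ribbon.Pt (DS.sg R)) := ⟨⟨⟨0, hk⟩, 0, true⟩⟩
  have hbr : D.bracket = (Γ.link (DS.sg R)).std.bracket := MT.T6.bracket_orients D _ hD
  refine ⟨if Even D.writhe then 1 else -1, by split_ifs <;> simp, fun j => ?_⟩
  have e1 : j + 3 * D.writhe = j - (-3 * D.writhe) := by ring
  rw [e1]
  unfold Diagram.fPoly
  rw [hbr]
  by_cases hw : Even D.writhe
  · rw [if_pos hw, if_pos hw, one_mul, one_mul, coeff_T_mul]
  · rw [if_neg hw, if_neg hw]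
    have e0 : (-1 : ℤ[T;T⁻¹]) * T (-3 * D.writhe) * (Γ.link (DS.sg R)).std.bracket =
        -(T (-3 * D.writhe) * (Γ.link (DS.sg R)).std.bracket) := by ring
    rw [e0]
    have : (-(T (-3 * D.writhe) * (Γ.link (DS.sg R)).std.bracket)).coeff j =
        -((T (-3 * D.writhe) * (Γ.link (DS.sg R)).std.bracket).coeff j) := rfl
    rw [this, coeff_T_mul, neg_one_mul]

theorem one_coeff (j : ℤ) (h : (1 : ℤ[T;T⁻¹]).coeff j ≠ 0) : j = 0 := by
  by_contra h0
  apply h
  rw [← T_zero, T_apply, if_neg (fun h' => h0 h'.symm)]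

/-- the state graph is a tree: all crossings are nugatory -/
theorem all_nugatory (Γ : Ribbon k) (hΓ : Γ.Planar) (S : Finset (Fin k))
    (h : (stateGraph Γ S).verts = k + 1) (e : Fin k) : Nugatory Γ e := by
  have h1 := comps_ge (stateGraph Γ S) (empty_subset (univ.erase e))
  rw [card_empty, D6.comps_empty, card_erase_of_mem (mem_univ e), card_univ, Fintype.card_fin] at h1
  have hk : 0 < k := Fin.pos e
  have h2 : 1 < (stateGraph Γ S).comps (univ.erase e) := by omega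
  unfold Nugatory
  by_cases he : e ∈ S
  · right
    rw [← Nug.erase_of_mem Γ hΓ S e he]
    exact h2
  · left
    rw [← Nug.erase_of_not_mem Γ hΓ S e he]
    exact h2

theorem conn (Γ : Ribbon k) (hΓ : Γ.Planar) (S : Finset (Fin k)) :
    (stateGraph Γ S).comps univ = 1 := by
  rw [sg_comps_univ, hΓ.1]

/-- the two lowest coefficients -/
theorem low (Γ : Ribbon k) (hΓ : Γ.Planar) (hk : 0 < k) (R S : Finset (Fin k))
    (h : SDom (stateGraph Γ S) (Asm R S))
    (D : Diagram (Ribbon.Pt (DS.sg R))) (hD : Orients D (Γ.link (DS.sg R))) :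
    (∀ j, D.fPoly.coeff j ≠ 0 →
      6 * (Asm R S).card - k - 2 * (stateGraph Γ S).verts + 2 - 3 * D.writhe ≤ j) ∧
    |D.fPoly.coeff (6 * (Asm R S).card - k - 2 * (stateGraph Γ S).verts + 2 - 3 * D.writhe)| = 1 ∧
    |D.fPoly.coeff (6 * (Asm R S).card - k - 2 * (stateGraph Γ S).verts + 2 - 3 * D.writhe + 4)| =
      redEdges (stateGraph Γ S) + 1 - (stateGraph Γ S).verts := by
  obtain ⟨s, hs, hc⟩ := fPoly_coeff Γ hk R D hD
  obtain ⟨a1, a2⟩ := Fin'.side Γ hΓ hk S _ h.dom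
  have a3 := second Γ hΓ hk S _ h
  have hge := redEdges_ge (stateGraph Γ S) (no_loop Γ hΓ S _ h) (conn Γ hΓ S)
  refine ⟨?_, ?_, ?_⟩
  · intro j hj
    rw [hc] at hj
    have h3 := right_ne_zero_of_mul hj
    rw [bracket_state Γ hk R S] at h3
    have h5 := a1 _ h3
    linarith
  · rw [hc, abs_mul, hs, one_mul, bracket_state Γ hk R S, sub_add_cancel]
    exact a2
  · rw [hc, abs_mul, hs, one_mul, bracket_state Γ hk R S, coeff_T_mul]
    have e1 : 6 * ((Asm R S).card : ℤ) - k - 2 * (stateGraph Γ S).verts + 2 - 3 * D.writhe + 4 +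
        3 * D.writhe - (2 * (Asm R S).card - k) =
        4 * (Asm R S).card - 2 * (stateGraph Γ S).verts + 6 := by ring
    rw [e1, a3, abs_mul, abs_pow, abs_neg, abs_one, one_pow, one_mul]
    have h6 : ((stateGraph Γ S).verts : ℤ) ≤ redEdges (stateGraph Γ S) + 1 := by exact_mod_cast hge
    rw [abs_of_nonpos (by linarith)]
    ring

/-- the two highest coefficients -/
theorem high (Γ : Ribbon k) (hΓ : Γ.Planar) (hk : 0 < k) (R S : Finset (Fin k))
    (h : SDom (stateGraph Γ S) (Asm R S)ᶜ)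
    (D : Diagram (Ribbon.Pt (DS.sg R))) (hD : Orients D (Γ.link (DS.sg R))) :
    (∀ j, D.fPoly.coeff j ≠ 0 →
      j ≤ k + 2 * (stateGraph Γ S).verts - 2 - 6 * ((Asm R S)ᶜ).card - 3 * D.writhe) ∧
    |D.fPoly.coeff (k + 2 * (stateGraph Γ S).verts - 2 - 6 * ((Asm R S)ᶜ).card - 3 * D.writhe)| = 1 ∧
    |D.fPoly.coeff (k + 2 * (stateGraph Γ S).verts - 2 - 6 * ((Asm R S)ᶜ).card - 3 * D.writhe - 4)| =
      redEdges (stateGraph Γ S) + 1 - (stateGraph Γ S).verts := by
  obtain ⟨s, hs, hc⟩ := fPoly_coeff Γ hk R D hD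
  obtain ⟨a1, a2⟩ := Fin'.side Γ hΓ hk S _ h.dom
  have a3 := second Γ hΓ hk S _ h
  have hge := redEdges_ge (stateGraph Γ S) (no_loop Γ hΓ S _ h) (conn Γ hΓ S)
  refine ⟨?_, ?_, ?_⟩
  · intro j hj
    rw [hc] at hj
    have h3 := right_ne_zero_of_mul hj
    rw [bracket_state' Γ hk R S] at h3
    have h5 := a1 _ h3
    linarith
  · rw [hc, abs_mul, hs, one_mul, bracket_state' Γ hk R S]
    have e1 : -((k : ℤ) + 2 * (stateGraph Γ S).verts - 2 - 6 * ((Asm R S)ᶜ).card - 3 * D.writhe +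
        3 * D.writhe) = 6 * ((Asm R S)ᶜ).card - k - 2 * (stateGraph Γ S).verts + 2 := by ring
    rw [e1]
    exact a2
  · rw [hc, abs_mul, hs, one_mul, bracket_state' Γ hk R S, coeff_T_mul]
    have e1 : -((k : ℤ) + 2 * (stateGraph Γ S).verts - 2 - 6 * ((Asm R S)ᶜ).card - 3 * D.writhe - 4 +
        3 * D.writhe) - (2 * ((Asm R S)ᶜ).card - k) =
        4 * ((Asm R S)ᶜ).card - 2 * (stateGraph Γ S).verts + 6 := by ring
    rw [e1, a3, abs_mul, abs_pow, abs_neg, abs_one, one_pow, one_mul]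
    have h6 : ((stateGraph Γ S).verts : ℤ) ≤ redEdges (stateGraph Γ S) + 1 := by exact_mod_cast hge
    rw [abs_of_nonpos (by linarith)]
    ring

/-- the writhe if the reduced state graph is a tree -/
theorem writhe_tree (Γ : Ribbon k) (hΓ : Γ.Planar) (R S M : Finset (Fin k))
    (h : SDom (stateGraph Γ S) M)
    (D : Diagram (Ribbon.Pt (DS.sg R))) (hD : Orients D (Γ.link (DS.sg R))) (hcl : D.IsClosed)
    (hK : IsKnot D) (hred : redEdges (stateGraph Γ S) + 1 = (stateGraph Γ S).verts) :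
    D.writhe = 2 * ((Asm R S).card : ℤ) - k := by
  obtain ⟨col, h1, h2⟩ := exists_col (stateGraph Γ S) (no_loop Γ hΓ S _ h) (conn Γ hΓ S) hred
  exact writhe_eq Γ R D hD hcl S col h1 h2 hK

theorem card_compl' (R S : Finset (Fin k)) :
    ((Asm R S).card : ℤ) + ((Asm R S)ᶜ).card = k := by
  have : (Asm R S).card + ((Asm R S)ᶜ).card = k := by
    rw [card_add_card_compl, Fintype.card_fin]
  exact_mod_cast this

theorem nontrivial_low (Γ : Ribbon k) (hΓ : Γ.Planar) (hk : 0 < k) (R S : Finset (Fin k))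
    (h : SDom (stateGraph Γ S) (Asm R S))
    (D : Diagram (Ribbon.Pt (DS.sg R))) (hD : Orients D (Γ.link (DS.sg R))) (hcl : D.IsClosed)
    (hK : IsKnot D) :
    (redEdges (stateGraph Γ S) + 1 = (stateGraph Γ S).verts →
      6 * ((Asm R S).card : ℤ) - k - 2 * (stateGraph Γ S).verts + 2 - 3 * D.writhe =
        2 * (k + 1 - (stateGraph Γ S).verts)) ∧
    ((∃ e, ¬ Nugatory Γ e) → D.fPoly ≠ 1) := by
  have hw : redEdges (stateGraph Γ S) + 1 = (stateGraph Γ S).verts →
      6 * ((Asm R S).card : ℤ) - k - 2 * (stateGraph Γ S).verts + 2 - 3 * D.writhe =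
        2 * (k + 1 - (stateGraph Γ S).verts) := by
    intro hred
    rw [writhe_tree Γ hΓ R S _ h D hD hcl hK hred]
    ring
  refine ⟨hw, ?_⟩
  rintro ⟨e, he⟩ hf
  obtain ⟨_, b2, b3⟩ := low Γ hΓ hk R S h D hD
  rw [hf] at b2 b3
  have h1 := one_coeff _ (fun h0 => by rw [h0] at b2; norm_num at b2)
  have h2 : (redEdges (stateGraph Γ S) : ℤ) + 1 - (stateGraph Γ S).verts = 0 := by
    rw [← b3, abs_eq_zero]
    by_contra h0
    have := one_coeff _ h0
    omega
  have hred : redEdges (stateGraph Γ S) + 1 = (stateGraph Γ S).verts := by omega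
  have h3 := hw hred
  exact he (all_nugatory Γ hΓ S (by omega) e)

theorem nontrivial_high (Γ : Ribbon k) (hΓ : Γ.Planar) (hk : 0 < k) (R S : Finset (Fin k))
    (h : SDom (stateGraph Γ S) (Asm R S)ᶜ)
    (D : Diagram (Ribbon.Pt (DS.sg R))) (hD : Orients D (Γ.link (DS.sg R))) (hcl : D.IsClosed)
    (hK : IsKnot D) :
    (redEdges (stateGraph Γ S) + 1 = (stateGraph Γ S).verts →
      k + 2 * (stateGraph Γ S).verts - 2 - 6 * (((Asm R S)ᶜ).card : ℤ) - 3 * D.writhe =
        -(2 * (k + 1 - (stateGraph Γ S).verts))) ∧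
    ((∃ e, ¬ Nugatory Γ e) → D.fPoly ≠ 1) := by
  have hw : redEdges (stateGraph Γ S) + 1 = (stateGraph Γ S).verts →
      k + 2 * (stateGraph Γ S).verts - 2 - 6 * (((Asm R S)ᶜ).card : ℤ) - 3 * D.writhe =
        -(2 * (k + 1 - (stateGraph Γ S).verts)) := by
    intro hred
    have h1 := writhe_tree Γ hΓ R S _ h D hD hcl hK hred
    have h2 := card_compl' R S
    rw [h1]
    linarith
  refine ⟨hw, ?_⟩
  rintro ⟨e, he⟩ hf
  obtain ⟨_, b2, b3⟩ := high Γ hΓ hk R S h D hD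
  rw [hf] at b2 b3
  have h1 := one_coeff _ (fun h0 => by rw [h0] at b2; norm_num at b2)
  have h2 : (redEdges (stateGraph Γ S) : ℤ) + 1 - (stateGraph Γ S).verts = 0 := by
    rw [← b3, abs_eq_zero]
    by_contra h0
    have := one_coeff _ h0
    omega
  have hred : redEdges (stateGraph Γ S) + 1 = (stateGraph Γ S).verts := by omega
  have h3 := hw hred
  exact he (all_nugatory Γ hΓ S (by omega) e)

end Pool.Agent.X130.SD
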