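import Pool.Agent.X130.SD.A

set_option autoImplicit false

/-! The curves of a class of parallel edges of a state graph. -/

namespace Pool.Agent.X130.SD

open Finset LaurentPolynomial Pool.Agent.H891R2.Jones Pool.Agent.H891R2.MT Pool.Agent.H891R2.DS
open Pool.Agent.H891R2

variable {k : ℕ}

theorem comps_le (G : Ribbon k) {S T : Finset (Fin k)} (h : S ⊆ T) : G.comps T ≤ G.comps S := by
  have h1 := D6.comps_anti G S T
  rwa [Finset.union_eq_right.2 h] at h1

theorem comps_ge (G : Ribbon k) {S T : Finset (Fin k)} (h : S ⊆ T) :
    S.card + G.comps S ≤ T.card + G.comps T :=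
  T3a.mono G T.card S T (by omega) h

/-- the number of components of a subgraph of a state graph -/
theorem rank_formula (Γ : Ribbon k) (hΓ : Γ.Planar) (S H : Finset (Fin k)) :
    Γ.comps (S \ H) + Γ.comps (S ∪ H) + S.card =
      (stateGraph Γ S).comps H + (H ∩ S).card + Γ.verts := by
  have h1 := regions Γ hΓ S H
  have h2 := regions Γ hΓ (S ∪ H) ∅
  rw [sdiff_empty, sdiff_empty, D6.comps_empty, sg_verts, card_empty] at h2
  have h3 := T2.curves_eq Γ hΓ (S ∪ H)
  have h4 : (S ∪ H)ᶜ = Sᶜ \ H := by
    ext x
    simp only [mem_compl, mem_union, mem_sdiff]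
    tauto
  rw [h4] at h2
  have h5 : (S ∪ H).card = S.card + (H \ S).card := by
    rw [← card_union_of_disjoint disjoint_sdiff, union_sdiff_self_eq_union]
  have h6 := card_inter_add_card_sdiff H S
  rw [h5] at h3
  push_cast at h3
  omega

/-- a class of parallel edges of a state graph is planar -/
theorem curves_parallel (Γ : Ribbon k) (hΓ : Γ.Planar) (S H : Finset (Fin k))
    (hloop : ∀ e, (stateGraph Γ S).comps {e} + 1 ≤ (stateGraph Γ S).verts)
    (hH : (stateGraph Γ S).comps H + 1 = (stateGraph Γ S).verts) :
    (stateGraph Γ S).curves H + 2 = H.card + (stateGraph Γ S).verts := by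
  have h0 := rank_formula Γ hΓ S ∅
  rw [sdiff_empty, union_empty, D6.comps_empty, empty_inter, card_empty] at h0
  have h1 := rank_formula Γ hΓ S H
  have hanti := D6.comps_anti Γ S H
  have hge := comps_ge Γ (sdiff_subset : S \ H ⊆ S)
  have hc0 : (S \ H).card + (H ∩ S).card = S.card := by
    rw [inter_comm]
    exact card_sdiff_add_card_inter S H
  rw [sg_curves]
  have hcur := T2.curves_eq Γ hΓ (symmDiff S H)
  by_cases hcase : Γ.comps (S ∪ H) = Γ.comps S
  · -- `H ⊆ S`
    have hsub : H ⊆ S := by
      intro g hg
      by_contra hgS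
      have h2 := rank_formula Γ hΓ S {g}
      have h3 := hloop g
      have e1 : S \ {g} = S := by
        rw [sdiff_singleton_eq_erase, erase_eq_of_notMem hgS]
      have e2 : ({g} : Finset (Fin k)) ∩ S = ∅ := by
        rw [singleton_inter_of_notMem hgS]
      rw [e1, e2, card_empty] at h2
      have h4 := comps_le Γ (union_subset_union (le_refl S) (singleton_subset_iff.2 hg))
      omega
    have e1 : symmDiff S H = S \ H := by
      ext x
      rw [mem_symmDiff, mem_sdiff]
      constructor
      · rintro (h | h)
        · exact h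
        · exact absurd (hsub h.1) h.2
      · intro h
        exact Or.inl h
    rw [e1] at hcur ⊢
    rw [inter_eq_left.2 hsub] at h1 hc0
    have hc0' : ((S \ H).card : ℤ) + H.card = S.card := by exact_mod_cast hc0
    omega
  · have hdis : ∀ e ∈ H, e ∉ S := by
      intro e he heS
      have h2 := rank_formula Γ hΓ S {e}
      have h3 := hloop e
      have e1 : S ∪ {e} = S := union_eq_left.2 (singleton_subset_iff.2 heS)
      have e2 : ({e} : Finset (Fin k)) ∩ S = {e} := by
        rw [singleton_inter_of_mem heS]
      rw [e1, e2, card_singleton, sdiff_singleton_eq_erase] at h2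
      have h4 : S \ H ⊆ S.erase e := by
        intro x hx
        rw [mem_sdiff] at hx
        exact mem_erase.2 ⟨fun h => hx.2 (h ▸ he), hx.1⟩
      have h5 := comps_ge Γ h4
      have h6 : (S.erase e).card + 1 = S.card := card_erase_add_one heS
      omega
    have e1 : symmDiff S H = S ∪ H := by
      ext x
      rw [mem_symmDiff, mem_union]
      constructor
      · rintro (h | h)
        · exact Or.inl h.1
        · exact Or.inr h.1
      · rintro (h | h)
        · exact Or.inl ⟨h, fun h' => hdis x h' h⟩
        · exact Or.inr ⟨h, hdis x h⟩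
    have e2 : H ∩ S = ∅ := by
      ext x
      simp only [mem_inter, notMem_empty, iff_false, not_and]
      exact hdis x
    have e3 : S \ H = S := by
      ext x
      rw [mem_sdiff]
      exact ⟨fun h => h.1, fun h => ⟨h, fun h' => hdis x h' h⟩⟩
    have e4 : (S ∪ H).card = S.card + H.card := by
      apply card_union_of_disjoint
      rw [disjoint_left]
      exact fun x hx hx' => hdis x hx' hx
    rw [e1] at hcur ⊢
    rw [e2, e3, card_empty] at h1
    rw [e4] at hcur
    push_cast at hcur
    omega

end Pool.Agent.X130.SD
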