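import Pool.Agent.X130.SD.C

set_option autoImplicit false

/-! The reduced state graph. -/

namespace Pool.Agent.X130.SD

open Finset LaurentPolynomial Pool.Agent.H891R2.Jones Pool.Agent.H891R2.MT Pool.Agent.H891R2.DS
open Pool.Agent.H891R2

variable {k : ℕ}

/-- the vertices of a ribbon graph (the cycles of `rot`) -/
abbrev Vert (G : Ribbon k) : Type := Quot (fun x y : Fin k × Bool => G.rot x = y)

/-- the pair of the end points of an edge -/
def ends (G : Ribbon k) (e : Fin k) : Sym2 (Vert G) := s(Quot.mk _ (e, false), Quot.mk _ (e, true))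

/-- the number of edges of the reduced graph: the number of pairs of vertices joined by an edge -/
noncomputable def redEdges (G : Ribbon k) : ℕ := (Set.range (ends G)).ncard

instance (G : Ribbon k) : Finite (Vert G) := Finite.of_surjective (Quot.mk _) Quot.mk_surjective

/-- the class of a vertex in a subgraph -/
def toC (G : Ribbon k) (R : Finset (Fin k)) : Vert G → Quot (T3a.rel G R) :=
  Quot.lift (Quot.mk _) (fun _ _ h => Quot.sound (Or.inl h))

theorem toC_mk (G : Ribbon k) (R : Finset (Fin k)) (d : Fin k × Bool) :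
    toC G R (Quot.mk _ d) = Quot.mk _ d := rfl

theorem toC_ends (G : Ribbon k) (R : Finset (Fin k)) (e : Fin k) (he : e ∈ R) :
    (Quot.mk (T3a.rel G R) (e, false)) = Quot.mk (T3a.rel G R) (e, true) :=
  Quot.sound (Or.inr ⟨he, rfl⟩)

/-- an edge parallel to an edge of `R` -/
theorem comps_par (G : Ribbon k) (R : Finset (Fin k)) (e f : Fin k) (he : e ∈ R)
    (h : ends G e = ends G f) : G.comps (insert f R) = G.comps R := by
  rcases T3a.comps_insert G R f with ⟨_, h2⟩ | ⟨h1, _⟩
  · exact h2
  · exfalso
    apply h1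
    have h3 := toC_ends G R e he
    rw [← toC_mk, ← toC_mk] at h3 ⊢
    unfold ends at h
    rw [Sym2.eq_iff] at h
    rcases h with ⟨a, b⟩ | ⟨a, b⟩
    · rw [← a, ← b]; exact h3
    · rw [← a, ← b]; exact h3.symm

theorem comps_of_ends (G : Ribbon k) (hloop : ∀ e, G.comps {e} + 1 ≤ G.verts) (F : Finset (Fin k))
    (hF : F.Nonempty) (p : Sym2 (Vert G)) (h : ∀ e ∈ F, ends G e = p) :
    G.comps F + 1 = G.verts := by
  classical
  obtain ⟨e, he⟩ := hF
  have key : ∀ F' : Finset (Fin k), (∀ x ∈ F', ends G x = p) →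
      G.comps (F' ∪ {e}) = G.comps {e} := by
    intro F'
    induction F' using Finset.induction_on with
    | empty => intro _; rw [empty_union]
    | insert a s _ ih =>
      intro h'
      have h1 := ih (fun x hx => h' x (mem_insert_of_mem hx))
      rw [insert_union, comps_par G (s ∪ {e}) e a (mem_union_right _ (mem_singleton_self e))
        ((h e he).trans (h' a (mem_insert_self _ _)).symm), h1]
  have h1 := key F h
  rw [union_eq_left.2 (singleton_subset_iff.2 he)] at h1
  have h2 := hloop e
  have h3 := comps_ge G (empty_subset {e})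
  rw [card_empty, card_singleton, D6.comps_empty] at h3
  omega

theorem not_loop (G : Ribbon k) (hloop : ∀ e, G.comps {e} + 1 ≤ G.verts) (e : Fin k) :
    (Quot.mk _ (e, false) : Vert G) ≠ Quot.mk _ (e, true) := by
  intro h
  have h1 := hloop e
  rcases T3a.comps_insert G ∅ e with ⟨_, h2⟩ | ⟨h2, _⟩
  · rw [D6.comps_empty] at h2
    have : (insert e ∅ : Finset (Fin k)) = {e} := rfl
    rw [this] at h2
    omega
  · exact h2 (congrArg (toC G ∅) h)

theorem ends_of_comps (G : Ribbon k) (hloop : ∀ e, G.comps {e} + 1 ≤ G.verts) (F : Finset (Fin k))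
    (h : G.comps F + 1 = G.verts) (e f : Fin k) (he : e ∈ F) (hf : f ∈ F) :
    ends G e = ends G f := by
  classical
  by_contra hne
  have hef : G.comps F ≤ G.comps (insert f {e}) := comps_le G (by
    intro x hx
    rw [mem_insert, mem_singleton] at hx
    rcases hx with rfl | rfl
    · exact hf
    · exact he)
  have h1 := hloop e
  have h3 := comps_ge G (empty_subset {e})
  rw [card_empty, card_singleton, D6.comps_empty] at h3
  rcases T3a.comps_insert G {e} f with ⟨h4, _⟩ | ⟨_, h4⟩
  · -- the invariant
    let φ : Vert G → Vert G := fun v => if v = Quot.mk _ (e, true) then Quot.mk _ (e, false) else v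
    have hφ : ∀ x y : Fin k × Bool, T3a.rel G {e} x y →
        φ (Quot.mk _ x) = φ (Quot.mk _ y) := by
      rintro ⟨x, b⟩ y (hxy | ⟨hx, rfl⟩)
      · have : (Quot.mk _ (x, b) : Vert G) = Quot.mk _ y := Quot.sound hxy
        rw [this]
      · simp only [mem_singleton] at hx
        subst hx
        cases b
        · simp only [φ, MT.flip, Bool.not_false, if_true]
          split_ifs <;> rfl
        · simp only [φ, MT.flip, Bool.not_true, if_true]
          split_ifs <;> rfl
    have h5 : φ (Quot.mk _ (f, false)) = φ (Quot.mk _ (f, true)) :=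
      congrArg (Quot.lift (fun x => φ (Quot.mk _ x)) hφ) h4
    have hnf := not_loop G hloop f
    simp only [φ] at h5
    apply hne
    unfold ends
    split_ifs at h5 with c1 c2 c2
    · exact absurd (c1.trans c2.symm) hnf
    · rw [Sym2.eq_iff]
      right
      exact ⟨h5, c1.symm⟩
    · rw [Sym2.eq_iff]
      left
      exact ⟨h5.symm, c2.symm⟩
    · exact absurd h5 hnf
  · omega

open Classical in
/-- the sum over the sets of parallel edges -/
theorem par_sum (G : Ribbon k) (hloop : ∀ e, G.comps {e} + 1 ≤ G.verts) (N : Finset (Fin k)) :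
    ∑ F ∈ (N.powerset.erase ∅).filter (fun F => G.comps F + 1 = G.verts), (-1 : ℤ) ^ F.card =
      -((N.image (ends G)).card : ℤ) := by
  have hset : (N.powerset.erase ∅).filter (fun F => G.comps F + 1 = G.verts) =
      (N.image (ends G)).biUnion (fun p => (N.filter (fun e => ends G e = p)).powerset.erase ∅) := by
    ext F
    rw [mem_filter, mem_erase, mem_powerset, mem_biUnion]
    constructor
    · rintro ⟨⟨h1, h2⟩, h3⟩
      obtain ⟨e, he⟩ := nonempty_iff_ne_empty.2 h1
      refine ⟨ends G e, mem_image_of_mem _ (h2 he), ?_⟩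
      rw [mem_erase, mem_powerset]
      refine ⟨h1, fun x hx => ?_⟩
      rw [mem_filter]
      exact ⟨h2 hx, ends_of_comps G hloop F h3 x e hx he⟩
    · rintro ⟨p, _, h2⟩
      rw [mem_erase, mem_powerset] at h2
      refine ⟨⟨h2.1, fun x hx => (mem_filter.1 (h2.2 hx)).1⟩, ?_⟩
      exact comps_of_ends G hloop F (nonempty_iff_ne_empty.2 h2.1) p
        (fun x hx => (mem_filter.1 (h2.2 hx)).2)
  rw [hset, sum_biUnion]
  · have h1 : ∀ p ∈ N.image (ends G),
        ∑ F ∈ (N.filter (fun e => ends G e = p)).powerset.erase ∅, (-1 : ℤ) ^ F.card = -1 := by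
      intro p hp
      have hne : (N.filter (fun e => ends G e = p)).Nonempty := by
        obtain ⟨e, he, hep⟩ := mem_image.1 hp
        exact ⟨e, mem_filter.2 ⟨he, hep⟩⟩
      have h2 := sum_powerset_neg_one_pow_card_of_nonempty hne
      rw [← add_sum_erase _ _ (empty_mem_powerset _), card_empty, pow_zero] at h2
      linarith
    rw [sum_congr rfl h1, sum_const]
    simp
  · intro p _ q _ hpq
    rw [Function.onFun, disjoint_left]
    intro F hF hF'
    rw [mem_erase, mem_powerset] at hF hF'
    obtain ⟨e, he⟩ := nonempty_iff_ne_empty.2 hF.1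
    exact hpq ((mem_filter.1 (hF.2 he)).2.symm.trans (mem_filter.1 (hF'.2 he)).2)

/-- the reduced graph -/
def redGraph (G : Ribbon k) : SimpleGraph (Vert G) where
  Adj x y := x ≠ y ∧ s(x, y) ∈ Set.range (ends G)
  symm := ⟨fun x y h => ⟨h.1.symm, by rw [Sym2.eq_swap]; exact h.2⟩⟩
  loopless := ⟨fun x h => h.1 rfl⟩

theorem redGraph_edges (G : Ribbon k) (hloop : ∀ e, G.comps {e} + 1 ≤ G.verts) :
    (redGraph G).edgeSet = Set.range (ends G) := by
  ext p
  induction p using Sym2.ind with
  | _ x y =>
    rw [SimpleGraph.mem_edgeSet]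
    constructor
    · exact fun h => h.2
    · intro h
      refine ⟨?_, h⟩
      obtain ⟨e, he⟩ := h
      have h1 := not_loop G hloop e
      unfold ends at he
      rw [Sym2.eq_iff] at he
      rcases he with ⟨rfl, rfl⟩ | ⟨rfl, rfl⟩
      · exact h1
      · exact h1.symm

theorem redGraph_connected (G : Ribbon k) (hloop : ∀ e, G.comps {e} + 1 ≤ G.verts)
    (hG : G.comps univ = 1) : (redGraph G).Connected := by
  have hadj : ∀ e, (redGraph G).Adj (Quot.mk _ (e, false)) (Quot.mk _ (e, true)) := by
    intro e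
    exact ⟨not_loop G hloop e, e, rfl⟩
  have hcard : Nat.card (Quot (T3a.rel G univ)) = 1 := hG
  have hsub : Subsingleton (Quot (T3a.rel G univ)) ∧ Nonempty (Quot (T3a.rel G univ)) := by
    have := Nat.card_eq_one_iff_unique.1 hcard
    exact ⟨this.1, this.2⟩
  have key : ∀ x y : Fin k × Bool, T3a.rel G univ x y →
      (redGraph G).connectedComponentMk (Quot.mk _ x) =
        (redGraph G).connectedComponentMk (Quot.mk _ y) := by
    rintro ⟨x, b⟩ y (hxy | ⟨_, rfl⟩)
    · have : (Quot.mk _ (x, b) : Vert G) = Quot.mk _ y := Quot.sound hxy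
      rw [this]
    · rw [SimpleGraph.ConnectedComponent.eq]
      cases b
      · exact (hadj x).reachable
      · exact (hadj x).reachable.symm
  refine (SimpleGraph.connected_iff _).2 ⟨?_, ?_⟩
  · intro u v
    obtain ⟨x, rfl⟩ := Quot.exists_rep u
    obtain ⟨y, rfl⟩ := Quot.exists_rep v
    have h1 : (Quot.mk (T3a.rel G univ) x) = Quot.mk _ y := hsub.1.elim _ _
    have h2 := congrArg (Quot.lift (fun x => (redGraph G).connectedComponentMk (Quot.mk _ x)) key) h1
    exact SimpleGraph.ConnectedComponent.eq.1 h2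
  · obtain ⟨q⟩ := hsub.2
    obtain ⟨x, _⟩ := Quot.exists_rep q
    exact ⟨Quot.mk _ x⟩

/-- `redEdges` is at least the number of the vertices minus one -/
theorem redEdges_ge (G : Ribbon k) (hloop : ∀ e, G.comps {e} + 1 ≤ G.verts)
    (hG : G.comps univ = 1) : G.verts ≤ redEdges G + 1 := by
  have h1 := (redGraph_connected G hloop hG).card_vert_le_card_edgeSet_add_one
  rw [redGraph_edges G hloop] at h1
  exact h1

/-- a two-colouring if the reduced graph is a tree -/
theorem exists_col (G : Ribbon k) (hloop : ∀ e, G.comps {e} + 1 ≤ G.verts)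
    (hG : G.comps univ = 1) (h : redEdges G + 1 = G.verts) :
    ∃ col : Fin k × Bool → Bool, (∀ d, col (G.rot d) = col d) ∧
      ∀ e, col (e, false) ≠ col (e, true) := by
  have htree : (redGraph G).IsTree := by
    rw [SimpleGraph.isTree_iff_connected_and_card]
    refine ⟨redGraph_connected G hloop hG, ?_⟩
    rw [redGraph_edges G hloop]
    exact h
  obtain ⟨C⟩ := htree.colorable_two
  refine ⟨fun d => decide (C (Quot.mk _ d) = 0), ?_, ?_⟩
  · intro d
    have : (Quot.mk _ (G.rot d) : Vert G) = Quot.mk _ d :=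
      (Quot.sound (r := fun x y : Fin k × Bool => G.rot x = y) (a := d) (b := G.rot d) rfl).symm
    simp only
    rw [this]
  · intro e
    have h1 : C (Quot.mk _ (e, false)) ≠ C (Quot.mk _ (e, true)) :=
      C.valid (show (redGraph G).Adj _ _ from ⟨not_loop G hloop e, e, rfl⟩)
    intro h2
    simp only [decide_eq_decide] at h2
    generalize C (Quot.mk _ (e, false)) = a at h1 h2
    generalize C (Quot.mk _ (e, true)) = b at h1 h2
    revert h1 h2
    fin_cases a <;> fin_cases b <;> simp

end Pool.Agent.X130.SD
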