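import Pool.Agent.X130.SD.D
import Pool.Agent.TH561.PK.Defs

set_option autoImplicit false

/-! The second coefficient, and orientations. -/

namespace Pool.Agent.X130.SD

open Finset LaurentPolynomial Pool.Agent.H891R2.Jones Pool.Agent.H891R2.MT Pool.Agent.H891R2.DS
open Pool.Agent.H891R2

variable {k : ℕ}

section state

variable (Γ : Ribbon k) (hΓ : Γ.Planar) (hk : 0 < k) (S M : Finset (Fin k))
  (hM : SDom (stateGraph Γ S) M)

include hΓ hM in
theorem no_loop (e : Fin k) : (stateGraph Γ S).comps {e} + 1 ≤ (stateGraph Γ S).verts :=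
  (ranks Γ hΓ S M hM).2 {e} (singleton_nonempty e)

include hΓ hM in
/-- the edges of `M` have no parallel edges -/
theorem M_simple (e f : Fin k) (he : e ∈ M) (h : ends (stateGraph Γ S) e = ends (stateGraph Γ S) f) :
    e = f := by
  by_contra hne
  have hl := no_loop Γ hΓ S M hM
  have h1 := comps_of_ends (stateGraph Γ S) hl {e, f} ⟨e, by simp⟩ (ends (stateGraph Γ S) e) (by
    intro x hx
    rw [mem_insert, mem_singleton] at hx
    rcases hx with rfl | rfl
    · rfl
    · exact h.symm)
  have h2 : ∀ x, (stateGraph Γ S).comps {x} + 1 = (stateGraph Γ S).verts := fun x =>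
    comps_of_ends (stateGraph Γ S) hl {x} ⟨x, by simp⟩ (ends (stateGraph Γ S) x) (by
      intro y hy
      rw [mem_singleton] at hy
      rw [hy])
  have h3 := (ranks Γ hΓ S M hM).1 {e, f} ⟨e, mem_inter.2 ⟨by simp, he⟩⟩ (by
    intro x hx
    have hx1 := (mem_inter.1 hx).1
    rw [mem_insert, mem_singleton] at hx1
    rcases hx1 with rfl | rfl
    · have e1 : ({x, f} : Finset (Fin k)).erase x = {f} := by
        rw [erase_insert (by rw [mem_singleton]; exact hne)]
      rw [e1]
      have := h2 f
      omega
    · have e1 : ({e, x} : Finset (Fin k)).erase x = {e} := by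
        ext y
        simp only [mem_erase, mem_insert, mem_singleton]
        constructor
        · rintro ⟨a, b | b⟩
          · exact b
          · exact absurd b a
        · rintro rfl
          exact ⟨hne, Or.inl rfl⟩
      rw [e1]
      have := h2 e
      omega)
  have h4 : 0 < (({e, f} : Finset (Fin k)) ∩ M).card := card_pos.2 ⟨e, mem_inter.2 ⟨by simp, he⟩⟩
  omega

open Classical in
include hΓ hM in
theorem redEdges_eq : redEdges (stateGraph Γ S) = ((Mᶜ).image (ends (stateGraph Γ S))).card + M.card := by
  have h1 : redEdges (stateGraph Γ S) = (univ.image (ends (stateGraph Γ S))).card := by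
    unfold redEdges
    rw [← Set.ncard_coe_finset]
    congr 1
    rw [coe_image, coe_univ, Set.image_univ]
  have h2 : (univ : Finset (Fin k)).image (ends (stateGraph Γ S)) =
      (Mᶜ).image (ends (stateGraph Γ S)) ∪ M.image (ends (stateGraph Γ S)) := by
    rw [← image_union, union_comm, union_compl]
  have h3 : (M.image (ends (stateGraph Γ S))).card = M.card := by
    apply card_image_of_injOn
    intro x hx y _ hxy
    exact M_simple Γ hΓ S M hM x y hx hxy
  rw [h1, h2, card_union_of_disjoint, h3]
  rw [disjoint_left]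
  intro p hp hp'
  obtain ⟨x, hx, rfl⟩ := mem_image.1 hp
  obtain ⟨y, hy, hxy⟩ := mem_image.1 hp'
  have := M_simple Γ hΓ S M hM y x hy hxy
  subst this
  exact (mem_compl.1 hx) hy

include hΓ hM hk in
/-- the second coefficient of the state sum: the number of independent cycles of the reduced graph -/
theorem second :
    (PP (stateGraph Γ S) M).coeff (4 * M.card - 2 * (stateGraph Γ S).verts + 6) =
      (-1) ^ ((stateGraph Γ S).verts - 1) *
        ((stateGraph Γ S).verts - 1 - redEdges (stateGraph Γ S)) := by
  classical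
  rw [second_coeff Γ hΓ hk S M hM, par_sum (stateGraph Γ S) (no_loop Γ hΓ S M hM) Mᶜ,
    redEdges_eq Γ hΓ S M hM]
  push_cast
  ring

end state

/-! ### orientations -/

section orient

variable (Γ : Ribbon k) (R : Finset (Fin k)) (D : Diagram (Ribbon.Pt (sg R)))
  (hD : Orients D (Γ.link (sg R)))

theorem natAbs_sg (e : Fin k) : (sg R e).natAbs = 1 := by
  unfold DS.sg
  split_ifs <;> rfl

/-- the first crossing of the edge `e` -/
def z (e : Fin k) : Fin (sg R e).natAbs := ⟨0, by rw [natAbs_sg]; exact Nat.one_pos⟩

theorem map_finRange_one {α : Type} {n : ℕ} (h : n = 1) (f : Fin n → α) :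
    (List.finRange n).map f = [f ⟨0, by omega⟩] := by
  subst h
  rfl

theorem link_crossings : (Γ.link (sg R)).crossings =
    (List.finRange k).map (fun e => Ribbon.twistCrossing (sg R) e (z R e)) := by
  unfold Ribbon.link
  simp only
  rw [← List.flatMap_singleton' (List.map _ _), List.flatMap_map]
  congr 1
  funext e
  exact map_finRange_one (natAbs_sg R e) _

include hD in
theorem exists_crossing (e : Fin k) : ∃ x ∈ D.crossings,
    (x.a, x.b, x.c, x.d) = Ribbon.twistCrossing (sg R) e (z R e) := by
  have h := hD.2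
  rw [link_crossings] at h
  have h1 : Ribbon.twistCrossing (sg R) e (z R e) ∈
      D.crossings.map (fun x => (x.a, x.b, x.c, x.d)) := by
    rw [h]
    exact List.mem_map_of_mem (List.mem_finRange e)
  obtain ⟨x, hx, hx2⟩ := List.mem_map.1 h1
  exact ⟨x, hx, hx2⟩

/-- the direction of the arc at the dart `d` -/
noncomputable def tau (d : Fin k × Bool) : Bool := by
  classical exact decide ((Ribbon.left (sg R) d, Ribbon.right (sg R) (Γ.rot d)) ∈ D.arcs)

theorem tau_true {d : Fin k × Bool} (h : tau Γ R D d = true) :
    (Ribbon.left (sg R) d, Ribbon.right (sg R) (Γ.rot d)) ∈ D.arcs := by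
  unfold tau at h
  simpa using h

theorem arcs_mem (d : Fin k × Bool) :
    (Ribbon.left (sg R) d, Ribbon.right (sg R) (Γ.rot d)) ∈ (Γ.link (sg R)).arcs := by
  unfold Ribbon.link
  simp only [List.mem_flatMap, List.mem_finRange, true_and]
  refine ⟨d.1, ?_⟩
  obtain ⟨e, b⟩ := d
  cases b
  · exact List.mem_cons_self
  · exact List.mem_cons_of_mem _ List.mem_cons_self

theorem mem_arcs {x : Ribbon.Pt (sg R) × Ribbon.Pt (sg R)} (hx : x ∈ (Γ.link (sg R)).arcs) :
    ∃ d, x = (Ribbon.left (sg R) d, Ribbon.right (sg R) (Γ.rot d)) := by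
  unfold Ribbon.link at hx
  simp only [List.mem_flatMap, List.mem_finRange, true_and, List.mem_cons, List.not_mem_nil,
    or_false] at hx
  obtain ⟨e, h | h⟩ := hx
  · exact ⟨(e, false), h⟩
  · exact ⟨(e, true), h⟩

theorem forall2_right {α : Type} {r : α → α → Prop} {l l' : List α} (h : List.Forall₂ r l l') :
    ∀ y ∈ l', ∃ x ∈ l, r x y := by
  induction h with
  | nil => intro y hy; simp at hy
  | cons h1 _ ih =>
    intro y hy
    rcases List.mem_cons.1 hy with rfl | hy
    · exact ⟨_, List.mem_cons_self, h1⟩
    · obtain ⟨x, hx, hx2⟩ := ih y hy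
      exact ⟨x, List.mem_cons_of_mem _ hx, hx2⟩

theorem forall2_left {α : Type} {r : α → α → Prop} {l l' : List α} (h : List.Forall₂ r l l') :
    ∀ x ∈ l, ∃ y ∈ l', r x y := by
  induction h with
  | nil => intro y hy; simp at hy
  | cons h1 _ ih =>
    intro y hy
    rcases List.mem_cons.1 hy with rfl | hy
    · exact ⟨_, List.mem_cons_self, h1⟩
    · obtain ⟨x, hx, hx2⟩ := ih y hy
      exact ⟨x, List.mem_cons_of_mem _ hx, hx2⟩

include hD in
theorem tau_false {d : Fin k × Bool} (h : tau Γ R D d = false) :
    (Ribbon.right (sg R) (Γ.rot d), Ribbon.left (sg R) d) ∈ D.arcs := by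
  unfold tau at h
  rw [decide_eq_false_iff_not] at h
  obtain ⟨x, hx, hx2⟩ := forall2_right hD.1 _ (arcs_mem Γ R d)
  rcases hx2 with rfl | rfl
  · exact absurd hx h
  · exact hx

variable (hcl : D.IsClosed)

include hcl in
theorem start_once (x : Crossing (Ribbon.Pt (sg R))) (hx : x ∈ D.crossings) :
    ((if x.underFwd then x.a else x.c) ∉ D.arcs.map Prod.fst) ∧
    ((if x.underFwd then x.c else x.a) ∉ D.arcs.map Prod.snd) ∧
    ((if x.overFwd then x.b else x.d) ∉ D.arcs.map Prod.fst) ∧
    ((if x.overFwd then x.d else x.b) ∉ D.arcs.map Prod.snd) := by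
  refine ⟨fun h => ?_, fun h => ?_, fun h => ?_, fun h => ?_⟩
  · have h1 := (hcl (if x.underFwd then x.a else x.c)).1
    unfold Diagram.starts at h1
    rw [List.count_append, List.count_append] at h1
    have h2 := List.count_pos_iff.2 h
    have h3 := List.count_pos_iff.2 (List.mem_map_of_mem (f := fun x : Crossing (Ribbon.Pt (sg R)) =>
      if x.underFwd then x.a else x.c) hx)

    omega
  · have h1 := (hcl (if x.underFwd then x.c else x.a)).2
    unfold Diagram.ends at h1
    rw [List.count_append, List.count_append] at h1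
    have h2 := List.count_pos_iff.2 h
    have h3 := List.count_pos_iff.2 (List.mem_map_of_mem (f := fun x : Crossing (Ribbon.Pt (sg R)) =>
      if x.underFwd then x.c else x.a) hx)

    omega
  · have h1 := (hcl (if x.overFwd then x.b else x.d)).1
    unfold Diagram.starts at h1
    rw [List.count_append, List.count_append] at h1
    have h2 := List.count_pos_iff.2 h
    have h3 := List.count_pos_iff.2 (List.mem_map_of_mem (f := fun x : Crossing (Ribbon.Pt (sg R)) =>
      if x.overFwd then x.b else x.d) hx)

    omega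
  · have h1 := (hcl (if x.overFwd then x.d else x.b)).2
    unfold Diagram.ends at h1
    rw [List.count_append, List.count_append] at h1
    have h2 := List.count_pos_iff.2 h
    have h3 := List.count_pos_iff.2 (List.mem_map_of_mem (f := fun x : Crossing (Ribbon.Pt (sg R)) =>
      if x.overFwd then x.d else x.b) hx)

    omega

/-- the left point of `d` is not the start of an arc: `tau d = false` -/
theorem left_fst {d : Fin k × Bool} (h : Ribbon.left (sg R) d ∉ D.arcs.map Prod.fst) :
    tau Γ R D d = false := by
  by_contra h1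
  rw [Bool.not_eq_false] at h1
  exact h (List.mem_map.2 ⟨_, tau_true Γ R D h1, rfl⟩)

include hD in
theorem left_snd {d : Fin k × Bool} (h : Ribbon.left (sg R) d ∉ D.arcs.map Prod.snd) :
    tau Γ R D d = true := by
  by_contra h1
  rw [Bool.not_eq_true] at h1
  exact h (List.mem_map.2 ⟨_, tau_false Γ R D hD h1, rfl⟩)

include hD in
theorem right_fst {d : Fin k × Bool} (h : Ribbon.right (sg R) d ∉ D.arcs.map Prod.fst) :
    tau Γ R D (Γ.rot.symm d) = true := by
  by_contra h1
  rw [Bool.not_eq_true] at h1
  apply h
  have := tau_false Γ R D hD h1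
  rw [Equiv.apply_symm_apply] at this
  exact List.mem_map.2 ⟨_, this, rfl⟩

theorem right_snd {d : Fin k × Bool} (h : Ribbon.right (sg R) d ∉ D.arcs.map Prod.snd) :
    tau Γ R D (Γ.rot.symm d) = false := by
  by_contra h1
  rw [Bool.not_eq_false] at h1
  apply h
  have := tau_true Γ R D h1
  rw [Equiv.apply_symm_apply] at this
  exact List.mem_map.2 ⟨_, this, rfl⟩

end orient

end Pool.Agent.X130.SD
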