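import Pool.Agent.X130.SD.E

set_option autoImplicit false

/-! The writhe of a knot whose state graph has a two-colouring. -/

namespace Pool.Agent.X130.SD

open Finset LaurentPolynomial Pool.Agent.H891R2.Jones Pool.Agent.H891R2.MT Pool.Agent.H891R2.DS
open Pool.Agent.H891R2 Pool.Agent.TH561.PK

variable {k : ℕ}

theorem z_cast (R : Finset (Fin k)) (e : Fin k) : (z R e).castSucc = 0 := rfl

theorem z_succ (R : Finset (Fin k)) (e : Fin k) : (z R e).succ = Fin.last _ := by
  apply Fin.ext
  rw [Fin.val_succ, Fin.val_last]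
  have h1 : (z R e).1 = 0 := rfl
  have h2 := natAbs_sg R e
  omega

theorem last_ne (R : Finset (Fin k)) (e : Fin k) : (Fin.last (DS.sg R e).natAbs) ≠ 0 := by
  intro h
  have := congrArg Fin.val h
  rw [Fin.val_last, natAbs_sg] at this
  simp at this

theorem left_f (R : Finset (Fin k)) (e : Fin k) :
    Ribbon.left (DS.sg R) (e, false) = ⟨e, 0, true⟩ := rfl

theorem left_t (R : Finset (Fin k)) (e : Fin k) :
    Ribbon.left (DS.sg R) (e, true) = ⟨e, Fin.last _, false⟩ := rfl

theorem right_f (R : Finset (Fin k)) (e : Fin k) :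
    Ribbon.right (DS.sg R) (e, false) = ⟨e, 0, false⟩ := rfl

theorem right_t (R : Finset (Fin k)) (e : Fin k) :
    Ribbon.right (DS.sg R) (e, true) = ⟨e, Fin.last _, true⟩ := rfl

theorem twist_eq (R : Finset (Fin k)) (e : Fin k) :
    Ribbon.twistCrossing (DS.sg R) e (z R e) =
      if e ∈ R then
        (Ribbon.left (DS.sg R) (e, false), Ribbon.right (DS.sg R) (e, false),
          Ribbon.left (DS.sg R) (e, true), Ribbon.right (DS.sg R) (e, true))
      else
        (Ribbon.right (DS.sg R) (e, false), Ribbon.left (DS.sg R) (e, true),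
          Ribbon.right (DS.sg R) (e, true), Ribbon.left (DS.sg R) (e, false)) := by
  unfold Ribbon.twistCrossing
  rw [z_cast, z_succ, left_f, left_t, right_f, right_t]
  by_cases h : e ∈ R
  · have h1 : ¬ (0 < DS.sg R e) := by unfold DS.sg; rw [if_pos h]; norm_num
    rw [if_neg h1, if_pos h]
  · have h1 : 0 < DS.sg R e := by unfold DS.sg; rw [if_neg h]; norm_num
    rw [if_pos h1, if_neg h]

section orient

variable (Γ : Ribbon k) (R : Finset (Fin k)) (D : Diagram (Ribbon.Pt (DS.sg R)))
  (hD : Orients D (Γ.link (DS.sg R))) (hcl : D.IsClosed)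

include hD hcl in
/-- the directions at the crossing of the edge `e` -/
theorem crossing_tau (e : Fin k) (x : Crossing (Ribbon.Pt (DS.sg R))) (hx : x ∈ D.crossings)
    (hxe : (x.a, x.b, x.c, x.d) = Ribbon.twistCrossing (DS.sg R) e (z R e)) :
    tau Γ R D (e, false) = !tau Γ R D (e, true) ∧
    tau Γ R D (Γ.rot.symm (e, false)) = !tau Γ R D (Γ.rot.symm (e, true)) ∧
    x.sign = if (e ∈ R ↔ tau Γ R D (e, false) ≠ tau Γ R D (Γ.rot.symm (e, false))) then -1 else 1 := by
  obtain ⟨h1, h2, h3, h4⟩ := start_once R D hcl x hx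
  rw [twist_eq] at hxe
  by_cases he : e ∈ R
  · rw [if_pos he] at hxe
    simp only [Prod.mk.injEq] at hxe
    obtain ⟨ha, hb, hc, hd⟩ := hxe
    rw [ha, hc] at h1 h2
    rw [hb, hd] at h3 h4
    have hu : tau Γ R D (e, false) = !x.underFwd ∧ tau Γ R D (e, true) = x.underFwd := by
      cases hx1 : x.underFwd
      · rw [hx1] at h1 h2
        exact ⟨left_snd Γ R D hD h2, left_fst Γ R D h1⟩
      · rw [hx1] at h1 h2
        exact ⟨left_fst Γ R D h1, left_snd Γ R D hD h2⟩
    have ho : tau Γ R D (Γ.rot.symm (e, false)) = x.overFwd ∧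
        tau Γ R D (Γ.rot.symm (e, true)) = !x.overFwd := by
      cases hx1 : x.overFwd
      · rw [hx1] at h3 h4
        exact ⟨right_snd Γ R D h4, right_fst Γ R D hD h3⟩
      · rw [hx1] at h3 h4
        exact ⟨right_fst Γ R D hD h3, right_snd Γ R D h4⟩
    unfold Crossing.sign
    rw [hu.1, hu.2, ho.1, ho.2]
    cases x.underFwd <;> cases x.overFwd <;> simp [he]
  · rw [if_neg he] at hxe
    simp only [Prod.mk.injEq] at hxe
    obtain ⟨ha, hb, hc, hd⟩ := hxe
    rw [ha, hc] at h1 h2
    rw [hb, hd] at h3 h4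
    have hu : tau Γ R D (Γ.rot.symm (e, false)) = x.underFwd ∧
        tau Γ R D (Γ.rot.symm (e, true)) = !x.underFwd := by
      cases hx1 : x.underFwd
      · rw [hx1] at h1 h2
        exact ⟨right_snd Γ R D h2, right_fst Γ R D hD h1⟩
      · rw [hx1] at h1 h2
        exact ⟨right_fst Γ R D hD h1, right_snd Γ R D h2⟩
    have ho : tau Γ R D (e, false) = x.overFwd ∧ tau Γ R D (e, true) = !x.overFwd := by
      cases hx1 : x.overFwd
      · rw [hx1] at h3 h4
        exact ⟨left_fst Γ R D h3, left_snd Γ R D hD h4⟩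
      · rw [hx1] at h3 h4
        exact ⟨left_snd Γ R D hD h4, left_fst Γ R D h3⟩
    unfold Crossing.sign
    rw [hu.1, hu.2, ho.1, ho.2]
    cases x.underFwd <;> cases x.overFwd <;> simp [he]

/-- the invariant of the curves -/
noncomputable def inv (col : Fin k × Bool → Bool) (p : Ribbon.Pt (DS.sg R)) : Bool :=
  if p.2.1 = 0 then
    (if p.2.2 then xor (tau Γ R D (p.1, false)) (col (p.1, false))
      else xor (tau Γ R D (Γ.rot.symm (p.1, false))) (col (Γ.rot.symm (p.1, false))))
  else
    (if p.2.2 then xor (tau Γ R D (Γ.rot.symm (p.1, true))) (col (Γ.rot.symm (p.1, true)))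
      else xor (tau Γ R D (p.1, true)) (col (p.1, true)))

theorem inv_left (col : Fin k × Bool → Bool) (d : Fin k × Bool) :
    inv Γ R D col (Ribbon.left (DS.sg R) d) = xor (tau Γ R D d) (col d) := by
  obtain ⟨e, b⟩ := d
  cases b
  · rw [left_f]
    unfold inv
    simp
  · rw [left_t]
    unfold inv
    rw [if_neg (last_ne R e)]
    rfl

theorem inv_right (col : Fin k × Bool → Bool) (d : Fin k × Bool) :
    inv Γ R D col (Ribbon.right (DS.sg R) d) =
      xor (tau Γ R D (Γ.rot.symm d)) (col (Γ.rot.symm d)) := by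
  obtain ⟨e, b⟩ := d
  cases b
  · rw [right_f]
    unfold inv
    simp
  · rw [right_t]
    unfold inv
    rw [if_neg (last_ne R e)]
    rfl

variable (S : Finset (Fin k)) (col : Fin k × Bool → Bool)
  (hcol : ∀ d, col ((stateGraph Γ S).rot d) = col d) (hcol2 : ∀ e, col (e, false) ≠ col (e, true))

include hcol in
theorem col_symm (d : Fin k × Bool) : col (Γ.rot.symm d) = col (flipOn S d) := by
  rw [← hcol (Γ.rot.symm d)]
  have : (stateGraph Γ S).rot (Γ.rot.symm d) = flipOn S (Γ.rot (Γ.rot.symm d)) := rfl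
  rw [this, Equiv.apply_symm_apply]

include hcol hcol2 in
theorem col_symm_ne (e : Fin k) : col (Γ.rot.symm (e, false)) = !col (Γ.rot.symm (e, true)) := by
  rw [col_symm Γ S col hcol, col_symm Γ S col hcol]
  have e1 : ∀ d, flipOn S d = if d.1 ∈ S then MT.flip d else d := fun _ => rfl
  rw [e1, e1]
  have h := hcol2 e
  have h2 : MT.flip (e, false) = (e, true) := rfl
  have h3 : MT.flip (e, true) = (e, false) := rfl
  simp only
  split_ifs
  · rw [h2, h3]
    revert h
    cases col (e, false) <;> cases col (e, true) <;> simp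
  · revert h
    cases col (e, false) <;> cases col (e, true) <;> simp

theorem exists_edge (x : Crossing (Ribbon.Pt (DS.sg R))) (hx : x ∈ D.crossings)
    (hD : Orients D (Γ.link (DS.sg R))) :
    ∃ e, (x.a, x.b, x.c, x.d) = Ribbon.twistCrossing (DS.sg R) e (z R e) := by
  have h := hD.2
  rw [link_crossings] at h
  have h1 : (x.a, x.b, x.c, x.d) ∈ D.crossings.map (fun x => (x.a, x.b, x.c, x.d)) :=
    List.mem_map_of_mem hx
  rw [h] at h1
  obtain ⟨e, _, he⟩ := List.mem_map.1 h1
  exact ⟨e, he.symm⟩

include hD hcl hcol hcol2 in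
theorem inv_piece (p q : Ribbon.Pt (DS.sg R)) (h : Piece D p q) :
    inv Γ R D col p = inv Γ R D col q := by
  rcases h with h | ⟨x, hx, h⟩
  · obtain ⟨y, hy, hy2⟩ := forall2_left hD.1 _ h
    obtain ⟨d, rfl⟩ := mem_arcs Γ R hy
    have key : inv Γ R D col (Ribbon.left (DS.sg R) d) =
        inv Γ R D col (Ribbon.right (DS.sg R) (Γ.rot d)) := by
      rw [inv_left, inv_right, Equiv.symm_apply_apply]
    rcases hy2 with h2 | h2
    · rw [Prod.mk.injEq] at h2
      rw [h2.1, h2.2, key]
    · rw [Prod.swap_prod_mk, Prod.mk.injEq] at h2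
      rw [h2.1, h2.2, key]
  · obtain ⟨e, he⟩ := exists_edge Γ R D x hx hD
    obtain ⟨h1, h2, _⟩ := crossing_tau Γ R D hD hcl e x hx he
    have hc := hcol2 e
    have hc2 := col_symm_ne Γ S col hcol hcol2 e
    have k1 : inv Γ R D col (Ribbon.left (DS.sg R) (e, false)) =
        inv Γ R D col (Ribbon.left (DS.sg R) (e, true)) := by
      rw [inv_left, inv_left, h1]
      revert hc
      cases col (e, false) <;> cases col (e, true) <;> cases tau Γ R D (e, true) <;> simp
    have k2 : inv Γ R D col (Ribbon.right (DS.sg R) (e, false)) =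
        inv Γ R D col (Ribbon.right (DS.sg R) (e, true)) := by
      rw [inv_right, inv_right, h2, hc2]
      cases col (Γ.rot.symm (e, true)) <;> cases tau Γ R D (Γ.rot.symm (e, true)) <;> rfl
    rw [twist_eq] at he
    by_cases heR : e ∈ R
    · rw [if_pos heR] at he
      simp only [Prod.mk.injEq] at he
      obtain ⟨ha, hb, hc', hd⟩ := he
      rcases h with ⟨rfl, rfl⟩ | ⟨rfl, rfl⟩
      · rw [ha, hc', k1]
      · rw [hb, hd, k2]
    · rw [if_neg heR] at he
      simp only [Prod.mk.injEq] at he
      obtain ⟨ha, hb, hc', hd⟩ := he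
      rcases h with ⟨rfl, rfl⟩ | ⟨rfl, rfl⟩
      · rw [ha, hc', k2]
      · rw [hb, hd, k1]

theorem map_eq_map_of {α β γ δ : Type} (l : List α) (m : List β) (f : α → γ) (g : β → γ)
    (s : α → δ) (t : β → δ) (h : l.map f = m.map g)
    (hs : ∀ x ∈ l, ∀ y ∈ m, f x = g y → s x = t y) : l.map s = m.map t := by
  induction l generalizing m with
  | nil =>
    cases m with
    | nil => rfl
    | cons b m => simp at h
  | cons a l ih =>
    cases m with
    | nil => simp at h
    | cons b m =>
      rw [List.map_cons, List.map_cons, List.cons.injEq] at h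
      rw [List.map_cons, List.map_cons, hs a List.mem_cons_self b List.mem_cons_self h.1,
        ih m h.2 (fun x hx y hy => hs x (List.mem_cons_of_mem _ hx) y (List.mem_cons_of_mem _ hy))]

include hD hcl hcol hcol2 in
/-- the writhe of a knot diagram if the state graph has a two-colouring -/
theorem writhe_eq (hK : IsKnot D) : D.writhe = 2 * ((Asm R S).card : ℤ) - k := by
  classical
  have hconst : ∀ p q, inv Γ R D col p = inv Γ R D col q := by
    intro p q
    have h := hK p q
    induction h with
    | rel x y h => exact inv_piece Γ R D hD hcl S col hcol hcol2 x y h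
    | refl x => rfl
    | symm x y _ ih => exact ih.symm
    | trans x y z _ _ h1 h2 => exact h1.trans h2
  have hrho : ∀ d d', xor (tau Γ R D d) (col d) = xor (tau Γ R D d') (col d') := by
    intro d d'
    rw [← inv_left, ← inv_left]
    exact hconst _ _
  have hsign : ∀ x ∈ D.crossings, ∀ e ∈ List.finRange k,
      (x.a, x.b, x.c, x.d) = Ribbon.twistCrossing (DS.sg R) e (z R e) →
      x.sign = if e ∈ Asm R S then 1 else -1 := by
    intro x hx e _ hxe
    obtain ⟨_, _, h3⟩ := crossing_tau Γ R D hD hcl e x hx hxe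
    rw [h3]
    have h4 : tau Γ R D (e, false) ≠ tau Γ R D (Γ.rot.symm (e, false)) ↔ e ∈ S := by
      have h5 := hrho (e, false) (Γ.rot.symm (e, false))
      have h6 := col_symm Γ S col hcol (e, false)
      have e1 : flipOn S (e, false) = if e ∈ S then (e, true) else (e, false) := rfl
      rw [e1] at h6
      by_cases heS : e ∈ S
      · rw [if_pos heS] at h6
        have h7 := hcol2 e
        rw [h6] at h5
        simp only [heS, iff_true]
        intro h8
        rw [h8] at h5
        revert h5 h7
        cases col (e, false) <;> cases col (e, true) <;>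
          cases tau Γ R D (Γ.rot.symm (e, false)) <;> simp
      · rw [if_neg heS] at h6
        rw [h6] at h5
        simp only [heS, iff_false, not_not]
        revert h5
        cases col (e, false) <;> cases tau Γ R D (e, false) <;>
          cases tau Γ R D (Γ.rot.symm (e, false)) <;> simp
    have h9 : (e ∈ R ↔ tau Γ R D (e, false) ≠ tau Γ R D (Γ.rot.symm (e, false))) ↔ e ∉ Asm R S := by
      unfold Asm
      simp only [mem_filter, mem_univ, true_and]
      rw [h4]
      tauto
    by_cases h10 : e ∈ Asm R S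
    · rw [if_neg (fun h => (h9.1 h) h10), if_pos h10]
    · rw [if_pos (h9.2 h10), if_neg h10]
  have h := hD.2
  rw [link_crossings] at h
  have hm := map_eq_map_of D.crossings (List.finRange k) _ _ Crossing.sign
    (fun e => if e ∈ Asm R S then (1 : ℤ) else -1) h hsign
  unfold Diagram.writhe
  rw [hm, ← Fin.sum_univ_def, Finset.sum_ite]
  simp only [sum_const, smul_eq_mul]
  have e1 : (univ.filter (fun e => e ∈ Asm R S)) = Asm R S := by ext; simp
  have e2 : (univ.filter (fun e => e ∉ Asm R S)) = (Asm R S)ᶜ := by ext; simp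
  have e3 : (Asm R S).card + (Asm R S)ᶜ.card = k := by
    rw [card_add_card_compl, Fintype.card_fin]
  rw [e1, e2]
  simp only [nsmul_eq_mul, mul_one]
  push_cast
  have e4 : ((Asm R S).card : ℤ) + (Asm R S)ᶜ.card = k := by exact_mod_cast e3
  linarith

end orient

end Pool.Agent.X130.SD
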