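import Pool.Agent.X130.SD.G
import Pool.Agent.H891R2.VS.Dom

set_option autoImplicit false

/-! The number of the coefficients of the bracket of a diagram with `k` crossings; Vassiliev invariants. -/

namespace Pool.Agent.X130.SD

open Finset LaurentPolynomial Pool.Agent.H891R2.Jones Pool.Agent.H891R2.MT Pool.Agent.H891R2.DS
open Pool.Agent.H891R2 Pool.Agent.TH561.PK Pool.Agent.H832R3.VJ

variable {k : ℕ}

/-- the exponents of `f` are among `lo, lo + 4, …, lo + 4 n` -/
def Sup (f : ℤ[T;T⁻¹]) (lo : ℤ) (n : ℕ) : Prop :=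
  ∀ j, f.coeff j ≠ 0 → ∃ i : ℕ, i ≤ n ∧ j = lo + 4 * i

theorem Sup.add {f g : ℤ[T;T⁻¹]} {lo : ℤ} {n : ℕ} (hf : Sup f lo n) (hg : Sup g lo n) :
    Sup (f + g) lo n := by
  intro j hj
  by_cases h : f.coeff j = 0
  · apply hg j
    intro h'
    apply hj
    rw [AddMonoidAlgebra.coeff_add, Finsupp.add_apply, h, h', add_zero]
  · exact hf j h

theorem Sup.zero {lo : ℤ} {n : ℕ} : Sup 0 lo n := fun _ hj => absurd rfl hj

theorem Sup.sum {ι : Type} (s : Finset ι) (f : ι → ℤ[T;T⁻¹]) {lo : ℤ} {n : ℕ}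
    (h : ∀ i ∈ s, Sup (f i) lo n) : Sup (∑ i ∈ s, f i) lo n := by
  classical
  induction s using Finset.induction_on with
  | empty => rw [Finset.sum_empty]; exact Sup.zero
  | insert a s ha ih =>
    rw [Finset.sum_insert ha]
    exact (h a (Finset.mem_insert_self _ _)).add
      (ih (fun i hi => h i (Finset.mem_insert_of_mem hi)))

theorem Sup.T_mul {f : ℤ[T;T⁻¹]} {lo : ℤ} {n : ℕ} (hf : Sup f lo n) (a : ℤ) :
    Sup (T a * f) (a + lo) n := by
  intro j hj
  rw [coeff_T_mul] at hj
  obtain ⟨i, hi, h⟩ := hf _ hj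
  exact ⟨i, hi, by linarith⟩

theorem Sup.mul_T {f : ℤ[T;T⁻¹]} {lo : ℤ} {n : ℕ} (hf : Sup f lo n) (a : ℤ) :
    Sup (f * T a) (a + lo) n := by
  rw [mul_comm]
  exact hf.T_mul a

theorem Sup.neg {f : ℤ[T;T⁻¹]} {lo : ℤ} {n : ℕ} (hf : Sup f lo n) : Sup (-f) lo n := by
  intro j hj
  apply hf j
  intro h
  apply hj
  have : (-f).coeff j = -(f.coeff j) := rfl
  rw [this, h, neg_zero]

theorem Sup.shift {f : ℤ[T;T⁻¹]} {lo lo' : ℤ} {n n' : ℕ} (hf : Sup f lo n) (a : ℕ)
    (h : lo = lo' + 4 * a) (h' : a + n ≤ n') : Sup f lo' n' := by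
  intro j hj
  obtain ⟨i, hi, h2⟩ := hf j hj
  exact ⟨a + i, by omega, by push_cast; linarith⟩

theorem Sup_d (N : ℕ) : Sup ((-T 2 - T (-2) : ℤ[T;T⁻¹]) ^ N) (-(2 * N)) N := by
  induction N with
  | zero =>
    rw [pow_zero]
    intro j hj
    exact ⟨0, le_rfl, by have := one_coeff j hj; push_cast; linarith⟩
  | succ N ih =>
    have h1 : (-T 2 - T (-2) : ℤ[T;T⁻¹]) ^ (N + 1) =
        -((-T 2 - T (-2)) ^ N * T 2) + -((-T 2 - T (-2)) ^ N * T (-2)) := by ring
    rw [h1]
    apply Sup.add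
    · exact (ih.mul_T 2).neg.shift 1 (by push_cast; ring) (by omega)
    · exact (ih.mul_T (-2)).neg.shift 0 (by push_cast; ring) (by omega)

theorem submod (Γ : Ribbon k) (R U : Finset (Fin k)) :
    Γ.comps R + Γ.comps U ≤ Γ.comps (U ∪ R) + Γ.verts := by
  induction U using Finset.induction_on with
  | empty => rw [empty_union, D6.comps_empty]
  | insert e U _ ih =>
    rw [insert_union]
    rcases T3a.comps_insert Γ U e with ⟨h1, h2⟩ | ⟨_, h2⟩
    · rcases T3a.comps_insert Γ (U ∪ R) e with ⟨_, h4⟩ | ⟨h3, _⟩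
      · omega
      · exfalso
        apply h3
        exact congrArg (Quot.lift (Quot.mk (T3a.rel Γ (U ∪ R)))
          (fun x y h => Quot.sound (T3a.rel_mono Γ subset_union_left x y h)) :
            Quot (T3a.rel Γ U) → Quot (T3a.rel Γ (U ∪ R))) h1
    · rcases T3a.comps_insert Γ (U ∪ R) e with ⟨_, h4⟩ | ⟨_, h4⟩ <;> omega

theorem comps_le_verts (G : Ribbon k) (X : Finset (Fin k)) : G.comps X ≤ G.verts := by
  have := comps_le G (empty_subset X)
  rwa [D6.comps_empty] at this

/-- the bracket of a connected diagram with `k` crossings has at most `k + 1` terms, with exponents in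
an arithmetic progression of step `4` -/
theorem bracket_sup (Γ : Ribbon k) (hΓ : Γ.Planar) (hk : 0 < k) (R : Finset (Fin k)) :
    Sup ((Γ.link (DS.sg R)).std.bracket) (2 - k - 2 * Γ.curves R) k := by
  have hA : Asm R R = ∅ := by
    unfold Asm
    ext x
    simp
  rw [bracket_state Γ hk R R, hA, card_empty]
  have key : Sup (DS.PP (stateGraph Γ R) ∅) (2 - 2 * Γ.curves R) k := by
    unfold DS.PP
    apply Sup.sum
    intro X _
    rw [sdiff_empty, inter_empty, card_empty]
    have h1 := D8.curves_pos (stateGraph Γ R) hk X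
    have hcX := sg_curves Γ R X
    have e1 := T2.curves_eq Γ hΓ (symmDiff R X)
    have e2 := T2.curves_eq Γ hΓ R
    have e3 := T2.curves_eq Γ hΓ Rᶜ
    have h2 := curves_le (stateGraph Γ R) X
    have h3 := comps_le_verts (stateGraph Γ R) X
    rw [sg_verts] at h2 h3
    have h4 := curves_le (stateGraph Γ Rᶜ) Xᶜ
    have h5 := comps_le_verts (stateGraph Γ Rᶜ) Xᶜ
    rw [sg_verts] at h4 h5
    rw [sg_curves] at h4
    have hsd : symmDiff Rᶜ Xᶜ = symmDiff R X := by
      ext x
      simp only [mem_symmDiff, mem_compl]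
      tauto
    rw [hsd, ← hcX] at h4
    have h6 := submod Γ R Rᶜ
    rw [union_comm, union_compl, hΓ.1] at h6
    have h7 : R.card + Rᶜ.card = k := by rw [card_add_card_compl, Fintype.card_fin]
    have h8 : X.card + Xᶜ.card = k := by rw [card_add_card_compl, Fintype.card_fin]
    have h9 : (symmDiff R X).card + 2 * (R ∩ X).card = R.card + X.card := by
      have a1 : (symmDiff R X).card = (R \ X).card + (X \ R).card := by
        rw [symmDiff_def, sup_eq_union, card_union_of_disjoint disjoint_sdiff_sdiff]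
      have a2 := card_sdiff_add_card_inter R X
      have a3 := card_sdiff_add_card_inter X R
      rw [inter_comm] at a3
      omega
    rw [← hcX] at e1
    have hc := (Sup_d ((stateGraph Γ R).curves X - 1)).T_mul
      (2 * (X.card : ℤ) - 2 * ((0 : ℕ) : ℤ))
    obtain ⟨a, ha⟩ : ∃ a : ℕ, (X.card : ℤ) + Γ.curves R - (stateGraph Γ R).curves X = 2 * a := by
      refine ⟨((X.card : ℤ) + Γ.curves R - (stateGraph Γ R).curves X).toNat / 2, ?_⟩
      omega
    refine hc.shift a ?_ ?_
    · omega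
    · omega
  have := key.T_mul (2 * ((0 : ℕ) : ℤ) - k)
  refine this.shift 0 ?_ ?_
  · push_cast
    ring
  · omega

theorem fPoly_sup (Γ : Ribbon k) (hΓ : Γ.Planar) (hk : 0 < k) (R : Finset (Fin k))
    (D : Diagram (Ribbon.Pt (DS.sg R))) (hD : Orients D (Γ.link (DS.sg R))) :
    D.fPoly.coeff.support.card ≤ k + 1 := by
  obtain ⟨s, hs, hc⟩ := fPoly_coeff Γ hk R D hD
  have h1 := bracket_sup Γ hΓ hk R
  have h2 : D.fPoly.coeff.support ⊆ (Finset.range (k + 1)).image
      (fun i : ℕ => (2 - k - 2 * Γ.curves R : ℤ) + 4 * i - 3 * D.writhe) := by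
    intro j hj
    rw [Finsupp.mem_support_iff, hc] at hj
    obtain ⟨i, hi, h⟩ := h1 _ (right_ne_zero_of_mul hj)
    rw [mem_image]
    exact ⟨i, mem_range.2 (by omega), by linarith⟩
  refine (card_le_card h2).trans (card_image_le.trans ?_)
  rw [card_range]

/-- knots with one strongly dominated state are detected by Vassiliev invariants -/
theorem detect (Γ : Ribbon k) (hΓ : Γ.Planar) (hk : 0 < k) (R : Finset (Fin k))
    (D : Diagram (Ribbon.Pt (DS.sg R))) (hD : Orients D (Γ.link (DS.sg R)))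
    (hne : D.fPoly ≠ 1) :
    Separated (k + 1) ⟨_, inferInstance, D⟩ unknot := by
  have hc := fPoly_sup Γ hΓ hk R D hD
  have := separated_of_ne (k + 2) ⟨_, inferInstance, D⟩ unknot 1 one_ne_zero ?_ ?_
  · exact this
  · rw [one_mul]
    refine (FinL.card_support_sub _ _).trans ?_
    have h2 : unknot.D.fPoly.coeff.support.card ≤ 1 := by
      rw [fPoly_unknot]
      simp
    simp only
    omega
  · rw [fPoly_unknot]; exact hne

end Pool.Agent.X130.SD
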