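import Pool.Agent.X130.SD.H

set_option autoImplicit false

/-! Pairs of diagrams. -/

namespace Pool.Agent.X130.SD

open Finset LaurentPolynomial Pool.Agent.H891R2.Jones Pool.Agent.H891R2.MT Pool.Agent.H891R2.DS
open Pool.Agent.H891R2 Pool.Agent.H832R3.VJ

/-- a closed link diagram with one crossing at every edge of the plane graph `Γ`, the crossings in `R`
being of the kind `-1`, with a state `S` -/
structure StateDiagram where
  k : ℕ
  pos : 0 < k
  Γ : Ribbon k
  planar : Γ.Planar
  R : Finset (Fin k)
  S : Finset (Fin k)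
  D : Diagram (Ribbon.Pt (DS.sg R))
  orients : Orients D (Γ.link (DS.sg R))
  closed : D.IsClosed

namespace StateDiagram

/-- the diagram -/
def dia (X : StateDiagram) : Dia := ⟨_, inferInstance, X.D⟩

/-- every cycle of the state graph has at least two more `B`-smoothed than `A`-smoothed crossings, and
at least three more if it contains an `A`-smoothed crossing -/
def BDominated (X : StateDiagram) : Prop := SDom (stateGraph X.Γ X.S) (Asm X.R X.S)

/-- every cycle of the state graph has at least two more `A`-smoothed than `B`-smoothed crossings, and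
at least three more if it contains a `B`-smoothed crossing -/
def ADominated (X : StateDiagram) : Prop := SDom (stateGraph X.Γ X.S) (Asm X.R X.S)ᶜ

/-- the number of independent cycles of the reduced state graph -/
noncomputable def cycles (X : StateDiagram) : ℤ :=
  redEdges (stateGraph X.Γ X.S) + 1 - (stateGraph X.Γ X.S).verts

/-- `6 m - k - 2 v + 2 - 3 w`: `m` the number of `A`-smoothings, `v` the number of circles, `w` the
writhe -/
noncomputable def lowest (X : StateDiagram) : ℤ :=
  6 * (Asm X.R X.S).card - X.k - 2 * (stateGraph X.Γ X.S).verts + 2 - 3 * X.D.writhe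

/-- `k + 2 v - 2 - 6 m' - 3 w`: `m'` the number of `B`-smoothings, `v` the number of circles, `w` the
writhe -/
noncomputable def highest (X : StateDiagram) : ℤ :=
  X.k + 2 * (stateGraph X.Γ X.S).verts - 2 - 6 * ((Asm X.R X.S)ᶜ).card - 3 * X.D.writhe

theorem sep_of_ne (X Y : StateDiagram) (h : X.D.fPoly ≠ Y.D.fPoly) :
    Separated (X.k + Y.k + 1) X.dia Y.dia := by
  have h1 := fPoly_sup X.Γ X.planar X.pos X.R X.D X.orients
  have h2 := fPoly_sup Y.Γ Y.planar Y.pos Y.R Y.D Y.orients
  refine separated_of_ne (X.k + Y.k + 2) X.dia Y.dia 1 one_ne_zero ?_ h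
  rw [one_mul]
  refine (FinL.card_support_sub _ _).trans ?_
  have h3 : X.dia.D.fPoly.coeff.support.card ≤ X.k + 1 := h1
  have h4 : Y.dia.D.fPoly.coeff.support.card ≤ Y.k + 1 := h2
  omega

theorem nz {x : ℤ} (h : |x| = 1) : x ≠ 0 := by
  intro h0
  rw [h0] at h
  norm_num at h

theorem sepB (X Y : StateDiagram) (hX : X.BDominated) (hY : Y.BDominated)
    (h : X.lowest ≠ Y.lowest ∨ X.cycles ≠ Y.cycles) : Separated (X.k + Y.k + 1) X.dia Y.dia := by
  apply sep_of_ne
  intro he
  obtain ⟨a1, a2, a3⟩ := low X.Γ X.planar X.pos X.R X.S hX X.D X.orients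
  obtain ⟨b1, b2, b3⟩ := low Y.Γ Y.planar Y.pos Y.R Y.S hY Y.D Y.orients
  have hl : X.lowest = Y.lowest := by
    apply le_antisymm
    · exact a1 _ (by rw [he]; exact nz b2)
    · exact b1 _ (by rw [← he]; exact nz a2)
  rcases h with h | h
  · exact h hl
  · apply h
    have a3' : |X.D.fPoly.coeff (X.lowest + 4)| = X.cycles := a3
    have b3' : |Y.D.fPoly.coeff (Y.lowest + 4)| = Y.cycles := b3
    rw [← a3', ← b3', he, hl]

theorem sepA (X Y : StateDiagram) (hX : X.ADominated) (hY : Y.ADominated)
    (h : X.highest ≠ Y.highest ∨ X.cycles ≠ Y.cycles) : Separated (X.k + Y.k + 1) X.dia Y.dia := by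
  apply sep_of_ne
  intro he
  obtain ⟨a1, a2, a3⟩ := high X.Γ X.planar X.pos X.R X.S hX X.D X.orients
  obtain ⟨b1, b2, b3⟩ := high Y.Γ Y.planar Y.pos Y.R Y.S hY Y.D Y.orients
  have hl : X.highest = Y.highest := by
    apply le_antisymm
    · exact b1 _ (by rw [← he]; exact nz a2)
    · exact a1 _ (by rw [he]; exact nz b2)
  rcases h with h | h
  · exact h hl
  · apply h
    have a3' : |X.D.fPoly.coeff (X.highest - 4)| = X.cycles := a3
    have b3' : |Y.D.fPoly.coeff (Y.highest - 4)| = Y.cycles := b3
    rw [← a3', ← b3', he, hl]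

end StateDiagram

end Pool.Agent.X130.SD
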